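import Pool.Agent.Lib.MP_ae5b4e_an_TR.Flat

open Complex Filter Topology Set

namespace PorTR

/-- A constant function satisfying the bound is `0`, so no member of `W` is constant.

Proof. If `q z = c` on `Hm` then `‖c‖ ≤ C / y ^ 2` for all `y > 0` (take `z = - I * y`), so `c = 0`,
which contradicts `ne0`. -/
theorem Lims.not_const {W : Set (ℂ → ℂ)} {C : ℝ} (hW : Lims W C) {q : ℂ → ℂ} (hq : q ∈ W) (c : ℂ) :
    ¬ ∀ z ∈ Hm, q z = c := by
  intro hc
  have hb : ∀ y : ℝ, 0 < y → ‖c‖ ≤ C / y ^ 2 := by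
    intro y hy
    have hz : (-(y : ℂ) * I) ∈ Hm := by
      simp only [Hm, mem_setOf_eq, Complex.mul_im, Complex.neg_re, Complex.ofReal_re,
        Complex.I_im, Complex.neg_im, Complex.ofReal_im, Complex.I_re]
      linarith
    have h1 := hW.bound q hq _ hz
    rw [hc _ hz] at h1
    have h2 : (-(y : ℂ) * I).im = -y := by simp
    rw [h2, neg_sq] at h1
    exact h1
  have hc0 : c = 0 := by
    rw [← norm_eq_zero]
    apply le_antisymm _ (norm_nonneg c)
    have h1 : Tendsto (fun y : ℝ => C / y ^ 2) atTop (𝓝 0) :=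
      Tendsto.div_atTop tendsto_const_nhds (tendsto_pow_atTop two_ne_zero)
    refine ge_of_tendsto h1 ?_
    filter_upwards [eventually_gt_atTop 0] with y hy
    exact hb y hy
  obtain ⟨z, hz, hne⟩ := hW.ne0 q hq
  exact hne (by rw [hc z hz, hc0])

/-- (2.11) The family of window limits is uniformly non degenerate.

Proof. `osc`: given `δ, C'`, suppose that for every `n` the constant `c = 1 / (n + 1)` fails: there
are `f n ∈ W` and an arc `γ n` with `dist (f n (γ n s)) (f n (γ n a)) < 1 / (n + 1)` for all `s`.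
`Lims.const_of_flat` with `v n = f n (γ n (a n))` and `Lims.not_const`: contradiction.
`small`: suppose that for every `n` the number `1 / (n + 1)` fails to be a possible `kap`: arcs in
`Strip d0 Ce` with `‖f n (γ n s)‖ < 1 / (n + 1)` and end points at distance `≥ d0`. Use
`Lims.const_of_flat` with `v n = 0`, `δ = d0`. -/
theorem Lims.fam {W : Set (ℂ → ℂ)} {C : ℝ} (hW : Lims W C) {d0 Ce : ℝ} (hd0 : 0 < d0)
    (hCe : 2 * d0 < Ce) : ∃ kap : ℝ, Fam W C d0 Ce kap := by
  have hlim : Tendsto (fun n : ℕ => 1 / ((n : ℝ) + 1)) atTop (𝓝 0) :=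
    tendsto_one_div_add_atTop_nhds_zero_nat
  have hpos : ∀ n : ℕ, (0 : ℝ) < 1 / ((n : ℝ) + 1) := fun n => Nat.one_div_pos_of_nat
  -- (S)
  have hsmall : ∃ kap : ℝ, 0 < kap ∧ ∀ q ∈ W, ∀ (a b : ℝ) (γ : ℝ → ℂ), a ≤ b →
      ContinuousOn γ (Icc a b) → MapsTo γ (Icc a b) (Strip d0 Ce) →
      (∀ s ∈ Icc a b, ‖q (γ s)‖ < kap) → dist (γ a) (γ b) < d0 := by
    by_contra hcon
    push Not at hcon
    choose q hq a b γ hab hγ hm hs hd using fun n : ℕ => hcon (1 / ((n : ℝ) + 1)) (hpos n)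
    obtain ⟨q', hq', c, hc⟩ := hW.const_of_flat hd0 hd0 q hq a b γ hab hγ hm hd (fun _ => 0)
      (fun n => 1 / ((n : ℝ) + 1)) hlim (fun n s hs' => by
        rw [sub_zero]; exact (hs n s hs').le)
    exact hW.not_const hq' c hc
  obtain ⟨kap, hk, hsm⟩ := hsmall
  refine ⟨kap, hW.C_pos, hd0, hCe, hk, hW.hol, hW.trans, hW.bound, hsm, ?_⟩
  intro δ hδ C'
  by_contra hcon
  push Not at hcon
  choose q hq a b γ hab hγ hm hd hs using fun n : ℕ => hcon (1 / ((n : ℝ) + 1)) (hpos n)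
  obtain ⟨q', hq', c, hc⟩ := hW.const_of_flat hd0 hδ q hq a b γ hab hγ hm hd
    (fun n => q n (γ n (a n))) (fun n => 1 / ((n : ℝ) + 1)) hlim (fun n s hs' => by
      have := (hs n s hs').le
      rwa [dist_eq_norm] at this)
  exact hW.not_const hq' c hc

end PorTR
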