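import Mathlib

/-!
# MP_ae5b4e_an (regime A): trajectories and the family of window limits

Common definitions of the projects B (no closed wall between finite trajectories) and D (density).
A function `q` is a window limit; everything happens in the open lower half plane `Hm`.
-/

open Complex Filter Topology Set

namespace PorTR

/-- the open lower half plane -/
def Hm : Set ℂ := {z | z.im < 0}

/-- closed strip of depths between `a` and `b` -/
def Strip (a b : ℝ) : Set ℂ := {z | a ≤ -z.im ∧ -z.im ≤ b}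

/-- `l` (on `t ≥ 0`) is the descending trajectory of `q` through `P`, parametrised by
`q (l t) = q P * exp (-2 t)`; all its points are regular points of `q`. -/
structure Traj (q : ℂ → ℂ) (P : ℂ) (l : ℝ → ℂ) : Prop where
  start : l 0 = P
  cont : ContinuousOn l (Ici 0)
  low : ∀ t, 0 ≤ t → l t ∈ Hm
  val : ∀ t, 0 ≤ t → q (l t) = q P * (Real.exp (-2 * t) : ℝ)
  reg : ∀ t, 0 ≤ t → deriv q (l t) ≠ 0

/-- the trajectory of `P` is finite: it ends at a point of `Hm` (a zero of `q`) -/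
def FinTraj (q : ℂ → ℂ) (P : ℂ) : Prop :=
  ∃ (l : ℝ → ℂ) (z : ℂ), Traj q P l ∧ z ∈ Hm ∧ Tendsto l atTop (𝓝 z)

/-- the trajectory of `P` is infinite: its depth tends to infinity -/
def InfTraj (q : ℂ → ℂ) (P : ℂ) : Prop :=
  ∃ l : ℝ → ℂ, Traj q P l ∧ Tendsto (fun t => (l t).im) atTop atBot

/-- `al` is a generic phase: no critical value of `q` on the open ray of phase `al` -/
def Generic (q : ℂ → ℂ) (al : ℝ) : Prop :=
  ∀ z ∈ Hm, deriv q z = 0 → ∀ r : ℝ, 0 < r → q z ≠ r * cexp (al * I)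

/-- (2.11) uniform non degeneracy of the family `W` of all window limits. Arcs are continuous maps
of an interval. -/
structure Fam (W : Set (ℂ → ℂ)) (C d0 Ce kap : ℝ) : Prop where
  C_pos : 0 < C
  d0_pos : 0 < d0
  d0_lt : 2 * d0 < Ce
  kap_pos : 0 < kap
  hol : ∀ q ∈ W, DifferentiableOn ℂ q Hm
  trans : ∀ q ∈ W, ∀ s : ℝ, (fun z => q (z + s)) ∈ W
  bound : ∀ q ∈ W, ∀ z ∈ Hm, ‖q z‖ ≤ C / z.im ^ 2
  /-- (S) an arc in the strip on which `|q| < kap` is short -/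
  small : ∀ q ∈ W, ∀ (a b : ℝ) (γ : ℝ → ℂ), a ≤ b → ContinuousOn γ (Icc a b) →
    MapsTo γ (Icc a b) (Strip d0 Ce) → (∀ s ∈ Icc a b, ‖q (γ s)‖ < kap) →
    dist (γ a) (γ b) < d0
  /-- (N) the oscillation of `q` on an arc of diameter `≥ δ` is at least `c (δ, C')` -/
  osc : ∀ δ : ℝ, 0 < δ → ∀ C' : ℝ, ∃ c : ℝ, 0 < c ∧ ∀ q ∈ W, ∀ (a b : ℝ) (γ : ℝ → ℂ), a ≤ b →
    ContinuousOn γ (Icc a b) → MapsTo γ (Icc a b) (Strip d0 C') → δ ≤ dist (γ a) (γ b) →
    ∃ s ∈ Icc a b, c ≤ dist (q (γ s)) (q (γ a))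

/-- the family of window limits before quantification: sequentially compact (Montel), invariant
under real translations, `|q| ≤ C / Im^2`, `0` is not a window limit. -/
structure Lims (W : Set (ℂ → ℂ)) (C : ℝ) : Prop where
  C_pos : 0 < C
  hol : ∀ q ∈ W, DifferentiableOn ℂ q Hm
  trans : ∀ q ∈ W, ∀ s : ℝ, (fun z => q (z + s)) ∈ W
  bound : ∀ q ∈ W, ∀ z ∈ Hm, ‖q z‖ ≤ C / z.im ^ 2
  ne0 : ∀ q ∈ W, ∃ z ∈ Hm, q z ≠ 0
  cpt : ∀ f : ℕ → ℂ → ℂ, (∀ n, f n ∈ W) → ∃ q ∈ W, ∃ φ : ℕ → ℕ, StrictMono φ ∧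
    TendstoLocallyUniformlyOn (fun n => f (φ n)) q atTop Hm

end PorTR
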