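import Pool.Agent.Lib.MP_ae5b4e_an_TR.Defs

open Complex Filter Topology Set

namespace PorTR

/-- A trajectory is differentiable for `t > 0` with derivative `- 2 q / q'`, and the function
`t ↦ l t` is continuously differentiable.

Proof. Let `z = l t`. `q` has a local inverse `g` near `q z` (`HasStrictDerivAt.localInverse`,
derivative `(deriv q z)⁻¹` at `q z`), and for `s` near `t` (`s > 0`) `l s = g (q (l s)) =
g (q P * exp (- 2 s))` by continuity of `l`; chain rule. -/
theorem Traj.hasDerivAt {q : ℂ → ℂ} (hq : DifferentiableOn ℂ q Hm) {P : ℂ} {l : ℝ → ℂ}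
    (h : Traj q P l) {t : ℝ} (ht : 0 < t) :
    HasDerivAt l (-2 * q (l t) / deriv q (l t)) t := by
  have hzH : l t ∈ Hm := h.low t ht.le
  have hop : IsOpen Hm := isOpen_lt Complex.continuous_im continuous_const
  have hqa : AnalyticAt ℂ q (l t) := hq.analyticAt (hop.mem_nhds hzH)
  have hqs : HasStrictDerivAt q (deriv q (l t)) (l t) := hqa.hasStrictDerivAt
  have hne : deriv q (l t) ≠ 0 := h.reg t ht.le
  have hlc : ContinuousAt l t := h.cont.continuousAt (Ici_mem_nhds ht)
  have e1 := hqs.eventually_left_inverse hne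
  have e2 : ∀ᶠ s in 𝓝 t, hqs.localInverse q (deriv q (l t)) (l t) hne (q (l s)) = l s := hlc e1
  have e3 : ∀ᶠ s in 𝓝 t, l s = (hqs.localInverse q (deriv q (l t)) (l t) hne)
      (q P * (Real.exp (-2 * s) : ℝ)) := by
    filter_upwards [e2, Ioi_mem_nhds ht] with s hs hs0
    rw [← h.val s (le_of_lt hs0), hs]
  have hin : HasDerivAt (fun s : ℝ => q P * ((Real.exp (-2 * s) : ℝ) : ℂ))
      (q P * ((Real.exp (-2 * t) * (-2) : ℝ) : ℂ)) t := by
    have h1 : HasDerivAt (fun s : ℝ => -2 * s) (-2) t := by
      simpa using (hasDerivAt_id t).const_mul (-2 : ℝ)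
    exact (h1.exp.ofReal_comp).const_mul _
  have hout : HasDerivAt (hqs.localInverse q (deriv q (l t)) (l t) hne) (deriv q (l t))⁻¹
      (q P * ((Real.exp (-2 * t) : ℝ) : ℂ)) := by
    have h1 := (hqs.to_localInverse hne).hasDerivAt
    rwa [h.val t ht.le] at h1
  have hcomp := HasDerivAt.scomp t hout hin
  have hfin := hcomp.congr_of_eventuallyEq (f₁ := l) (by
    filter_upwards [e3] with s hs
    exact hs)
  refine hfin.congr_deriv ?_
  rw [h.val t ht.le, smul_eq_mul]
  push_cast
  field_simp

/-- The phases which are not generic form a countable set.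

Proof. `deriv q` is analytic on the connected open set `Hm` and not identically zero (otherwise `q`
is constant on the convex set `Hm`). Its zeros in `Hm` are isolated, so they form a countable set
(`AnalyticOnNhd.preimage_zero_...`/ discrete subset of a second countable space:
`AnalyticOnNhd.preimage_zero_mem_codiscreteWithin`, `Set.Countable` of a set all of whose points are
isolated: `Set.countable_of_isolated...`, or cover `Hm` by countably many compact discs each of
which contains finitely many zeros). If `al` is not generic then `q z = r * exp (al * I)`, `r > 0`,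
for some critical point `z`, so `al = arg (q z) + 2 π k` with `k : ℤ`: a countable set of values. -/
theorem countable_not_generic {q : ℂ → ℂ} (hq : DifferentiableOn ℂ q Hm)
    (hc : ¬ ∃ c : ℂ, ∀ z ∈ Hm, q z = c) : {al : ℝ | ¬ Generic q al}.Countable := by
  have hop : IsOpen Hm := isOpen_lt Complex.continuous_im continuous_const
  have hconv : Convex ℝ Hm := convex_halfSpace_im_lt 0
  have hne : (-I : ℂ) ∈ Hm := by simp [Hm]
  have hconn : IsConnected Hm := ⟨⟨_, hne⟩, hconv.isPreconnected⟩
  have hder : AnalyticOnNhd ℂ (deriv q) Hm := (hq.analyticOnNhd hop).deriv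
  obtain ⟨x, hx, hx0⟩ : ∃ x ∈ Hm, deriv q x ≠ 0 := by
    by_contra hcon
    push Not at hcon
    apply hc
    obtain ⟨c, hc'⟩ := hop.exists_is_const_of_deriv_eq_zero hconv.isPreconnected hq
      (fun z hz => hcon z hz)
    exact ⟨c, hc'⟩
  have hcz : ({z ∈ Hm | deriv q z = 0}).Countable := by
    have h1 := hder.preimage_zero_mem_codiscreteWithin hx0 hx hconn
    have h2 : ((deriv q ⁻¹' {0}ᶜ)ᶜ ∩ Hm).Countable := by
      apply (HereditarilyLindelofSpace.isLindelof _).countable_of_isDiscrete
        (isDiscrete_of_codiscreteWithin _)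
      simpa using! h1
    refine h2.mono ?_
    rintro z ⟨hz, hz0⟩
    exact ⟨by simp [hz0], hz⟩
  have hsub : {al : ℝ | ¬ Generic q al} ⊆
      ⋃ z ∈ {z ∈ Hm | deriv q z = 0}, range (fun k : ℤ => arg (q z) + k * (2 * Real.pi)) := by
    intro al hal
    simp only [Generic, mem_ofPred_eq] at hal
    push Not at hal
    obtain ⟨z, hz, hz0, r, hr, hqz⟩ := hal
    simp only [mem_iUnion]
    refine ⟨z, ⟨hz, hz0⟩, ?_⟩
    have h1 : arg (q z) = toIocMod Real.two_pi_pos (-Real.pi) al := by
      rw [hqz, Complex.arg_real_mul _ hr, Complex.arg_exp_mul_I]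
    refine ⟨toIocDiv Real.two_pi_pos (-Real.pi) al, ?_⟩
    simp only
    rw [h1]
    have h2 := toIocMod_add_toIocDiv_zsmul Real.two_pi_pos (-Real.pi) al
    rw [zsmul_eq_mul] at h2
    exact h2
  exact (hcz.biUnion fun z _ => countable_range _).mono hsub

end PorTR
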