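import Pool.Agent.Lib.MP_ae5b4e_an_TR.Defs

open Complex Filter Topology Set

namespace PorTR

/-- An arc whose end points are at distance `≥ δ` contains for every `r ∈ [0, δ]` a point at
distance exactly `r` from its starting point.

Proof. `s ↦ dist (γ a) (γ s)` is continuous on `Icc a b`, equal to `0` at `a` and `≥ δ ≥ r` at `b`:
intermediate value theorem (`intermediate_value_Icc`). -/
theorem exists_dist_eq {a b δ r : ℝ} {γ : ℝ → ℂ} (hab : a ≤ b) (hγ : ContinuousOn γ (Icc a b))
    (hδ : δ ≤ dist (γ a) (γ b)) (h0 : 0 ≤ r) (hr : r ≤ δ) :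
    ∃ s ∈ Icc a b, dist (γ a) (γ s) = r := by
  have hc : ContinuousOn (fun s => dist (γ a) (γ s)) (Icc a b) :=
    continuous_dist.comp_continuousOn (continuousOn_const.prodMk hγ)
  have h1 := intermediate_value_Icc hab hc
  have hmem : r ∈ Icc (dist (γ a) (γ a)) (dist (γ a) (γ b)) :=
    ⟨by rw [dist_self]; exact h0, hr.trans hδ⟩
  obtain ⟨s, hs, hsr⟩ := h1 hmem
  exact ⟨s, hs, hsr⟩

/-- a compact piece of a strip -/
theorem flat_compact (d0 C' δ : ℝ) : IsCompact {z : ℂ | |z.re| ≤ δ ∧ z ∈ Strip d0 C'} := by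
  have hcl : IsClosed {z : ℂ | |z.re| ≤ δ ∧ z ∈ Strip d0 C'} := by
    apply IsClosed.and
    · exact isClosed_le (by fun_prop) continuous_const
    · exact (isClosed_le continuous_const (by fun_prop)).and
        (isClosed_le (by fun_prop) continuous_const)
  refine Metric.isCompact_of_isClosed_isBounded hcl ?_
  rw [isBounded_iff_forall_norm_le]
  refine ⟨δ + (|d0| + |C'|), fun z hz => ?_⟩
  obtain ⟨h1, h2, h3⟩ := hz
  refine (Complex.norm_le_abs_re_add_abs_im z).trans (add_le_add h1 ?_)
  rw [abs_le]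
  constructor
  · linarith [neg_abs_le d0, le_abs_self C', abs_nonneg d0]
  · linarith [neg_abs_le d0, abs_nonneg C']

/-- COMPACTNESS LEMMA. Let `f n` be functions of the family `W`, `γ n : Icc (a n) (b n) → ℂ` arcs in
the strip `Strip d0 C'` (`0 < d0`) with end points at distance `≥ δ > 0`, and `v n` complex numbers
with `‖f n (γ n s) - v n‖ ≤ ε n` for all `s`, where `ε n → 0` and `v n = f n (γ n (a n))` or
`v n = 0`. Then some `q ∈ W` is constant on `Hm`.

Proof. Translate: replace `f n` by `z ↦ f n (z + Re (γ n (a n)))`, which is in `W`, and `γ n` by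
`γ n - Re (γ n (a n))`. So we may assume `Re (γ n (a n)) = 0`; then `p n := γ n (a n)` lies in the
compact set `{0} × [-C', -d0]`. For `k : ℕ` let `r k := min δ (d0 / 2) / (k + 1)`, hence
`0 < r k ≤ δ`; by `exists_dist_eq` there is `z n k` on the arc with `dist (p n) (z n k) = r k`;
`z n k` is in the compact set `K := closedBall` of radius `δ` around the segment, intersected with
`Strip d0 C'` (a compact subset of `Hm`). Take a subsequence along which `f n → q ∈ W` locally
uniformly on `Hm` (`cpt`) and a further cluster point: by compactness of `K` and a diagonal argument,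
or more simply with an ultrafilter `U ≤ atTop`: `p n → p`, `z n k → z k` along `U` for every `k`
(`IsCompact.ultrafilter_le_nhds`), `v n → v` along `U` (bounded by `C / d0 ^ 2`). Then
`dist p (z k) = r k` and `q (z k) = lim f n (z n k) = lim v n = v` (locally uniform convergence at
convergent points: `TendstoLocallyUniformlyOn` + continuity of `q` give
`Tendsto (fun n => f n (z n k)) U (𝓝 (q (z k)))`, see `tendsto_of_tendstoLocallyUniformlyOn` style
lemmas `TendstoLocallyUniformlyOn.tendsto_at`/`tendsto_comp_of_locally_uniform_limit_within`).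
So `q = v` at the points `z k ≠ p`, `z k → p ∈ Hm`: `q - v` has a nonisolated zero at `p`, `Hm` is
open and connected (convex), identity theorem
(`AnalyticOnNhd.eqOn_of_preconnected_of_frequently_eq`): `q = v` on `Hm`. Undo nothing: the
translated limit is itself in `W`. -/
theorem Lims.const_of_flat {W : Set (ℂ → ℂ)} {C : ℝ} (hW : Lims W C) {d0 C' δ : ℝ} (hd0 : 0 < d0)
    (hδ : 0 < δ) (f : ℕ → ℂ → ℂ) (hf : ∀ n, f n ∈ W) (a b : ℕ → ℝ) (γ : ℕ → ℝ → ℂ)
    (hab : ∀ n, a n ≤ b n) (hγ : ∀ n, ContinuousOn (γ n) (Icc (a n) (b n)))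
    (hm : ∀ n, MapsTo (γ n) (Icc (a n) (b n)) (Strip d0 C'))
    (hd : ∀ n, δ ≤ dist (γ n (a n)) (γ n (b n))) (v : ℕ → ℂ) (ε : ℕ → ℝ)
    (hε : Tendsto ε atTop (𝓝 0))
    (hv : ∀ n, ∀ s ∈ Icc (a n) (b n), ‖f n (γ n s) - v n‖ ≤ ε n) :
    ∃ q ∈ W, ∃ c : ℂ, ∀ z ∈ Hm, q z = c := by
  -- translation
  set x : ℕ → ℝ := fun n => (γ n (a n)).re with hx
  obtain ⟨q, hq, φ, hφ, hlim⟩ := hW.cpt (fun n z => f n (z + (x n : ℂ)))
    (fun n => hW.trans _ (hf n) (x n))
  refine ⟨q, hq, ?_⟩
  set r : ℕ → ℝ := fun k => min δ 1 * (1 / ((k : ℝ) + 1)) with hr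
  have hm1 : 0 < min δ 1 := lt_min hδ one_pos
  have hr0 : ∀ k, 0 < r k := fun k => mul_pos hm1 Nat.one_div_pos_of_nat
  have hrδ : ∀ k, r k ≤ δ := by
    intro k
    have h1 : 1 / ((k : ℝ) + 1) ≤ 1 := by
      rw [div_le_one (by positivity)]
      have : (0 : ℝ) ≤ k := Nat.cast_nonneg _
      linarith
    calc r k ≤ min δ 1 * 1 := mul_le_mul_of_nonneg_left h1 hm1.le
      _ = min δ 1 := mul_one _
      _ ≤ δ := min_le_left _ _
  have hrlim : Tendsto r atTop (𝓝 0) := by
    have := (tendsto_one_div_add_atTop_nhds_zero_nat (𝕜 := ℝ)).const_mul (min δ 1)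
    rwa [mul_zero] at this
  choose s hs hsr using fun n k =>
    exists_dist_eq (hab n) (hγ n) (hd n) (hr0 k).le (hrδ k)
  -- the points
  set p : ℕ → ℂ := fun n => γ n (a n) - (x n : ℂ) with hp
  set z : ℕ → ℕ → ℂ := fun k n => γ n (s n k) - (x n : ℂ) with hz
  have hdist : ∀ k n, dist (p n) (z k n) = r k := by
    intro k n
    simp only [hp, hz]
    rw [dist_sub_right]
    exact hsr n k
  set K : Set ℂ := {z : ℂ | |z.re| ≤ δ ∧ z ∈ Strip d0 C'} with hK
  have hKc : IsCompact K := flat_compact d0 C' δ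
  have hpre : ∀ n, (p n).re = 0 := by
    intro n
    simp only [hp, hx, Complex.sub_re, Complex.ofReal_re, sub_self]
  have hpK : ∀ n, p n ∈ K := by
    intro n
    refine ⟨by rw [hpre n, abs_zero]; exact hδ.le, ?_⟩
    have h1 := hm n (left_mem_Icc.2 (hab n))
    simpa only [Strip, mem_ofPred_eq, hp, Complex.sub_im, Complex.ofReal_im, sub_zero] using h1
  have hzK : ∀ k n, z k n ∈ K := by
    intro k n
    refine ⟨?_, ?_⟩
    · have h1 := Complex.abs_re_le_norm (z k n - p n)
      rw [Complex.sub_re, hpre n, sub_zero, ← dist_eq_norm, dist_comm, hdist k n] at h1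
      exact h1.trans (hrδ k)
    · have h1 := hm n (hs n k)
      simpa only [Strip, mem_ofPred_eq, hz, Complex.sub_im, Complex.ofReal_im, sub_zero] using h1
  -- an ultrafilter
  set U : Ultrafilter ℕ := Ultrafilter.of atTop with hU
  have hUle : (U : Filter ℕ) ≤ atTop := Ultrafilter.of_le atTop
  obtain ⟨p', hp'K, hp'⟩ := hKc.ultrafilter_le_nhds (U.map fun n => p (φ n)) (by
    rw [le_principal_iff, Ultrafilter.mem_coe, Ultrafilter.mem_map]
    exact univ_mem' fun n => hpK (φ n))
  have hz' : ∀ k, ∃ z' ∈ K, Tendsto (fun n => z k (φ n)) U (𝓝 z') := by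
    intro k
    obtain ⟨z', hz'K, hz'⟩ := hKc.ultrafilter_le_nhds (U.map fun n => z k (φ n)) (by
      rw [le_principal_iff, Ultrafilter.mem_coe, Ultrafilter.mem_map]
      exact univ_mem' fun n => hzK k (φ n))
    exact ⟨z', hz'K, hz'⟩
  choose z' hz'K hz't using hz'
  have hp't : Tendsto (fun n => p (φ n)) U (𝓝 p') := hp'
  have hKH : ∀ y ∈ K, y ∈ Hm := by
    intro y hy
    have := hy.2.1
    show y.im < 0
    linarith
  have hop : IsOpen Hm := isOpen_lt Complex.continuous_im continuous_const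
  -- distances of the limits
  have hd' : ∀ k, dist p' (z' k) = r k := by
    intro k
    have h1 : Tendsto (fun n => dist (p (φ n)) (z k (φ n))) U (𝓝 (dist p' (z' k))) :=
      hp't.dist (hz't k)
    have h2 : Tendsto (fun n : ℕ => dist (p (φ n)) (z k (φ n))) U (𝓝 (r k)) := by
      simp only [hdist]
      exact tendsto_const_nhds
    exact tendsto_nhds_unique h1 h2
  -- values
  have hval : ∀ k, Tendsto (fun n => v (φ n)) U (𝓝 (q (z' k))) := by
    intro k
    have hzH := hKH _ (hz'K k)
    have h1 : Tendsto (fun n => f (φ n) (z k (φ n) + (x (φ n) : ℂ))) U (𝓝 (q (z' k))) := by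
      have hcw : ContinuousWithinAt q Hm (z' k) := (hW.hol q hq _ hzH).continuousWithinAt
      refine tendsto_comp_of_locally_uniform_limit_within (s := Hm)
        (F := fun n y => f (φ n) (y + (x (φ n) : ℂ))) (g := fun n => z k (φ n)) hcw ?_ ?_
      · rw [tendsto_nhdsWithin_iff]
        exact ⟨hz't k, Eventually.of_forall fun n => hKH _ (hzK k (φ n))⟩
      · intro u hu
        obtain ⟨t, ht, h⟩ := hlim u hu _ hzH
        exact ⟨t, ht, h.filter_mono hUle⟩
    have h2 : Tendsto (fun n => f (φ n) (z k (φ n) + (x (φ n) : ℂ)) - v (φ n)) U (𝓝 0) := by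
      have h3 : Tendsto (fun n => ε (φ n)) U (𝓝 0) := (hε.comp hφ.tendsto_atTop).mono_left hUle
      refine squeeze_zero_norm (fun n => ?_) h3
      have h4 := hv (φ n) _ (hs (φ n) k)
      simp only [hz, sub_add_cancel]
      exact h4
    have h3 := h1.sub h2
    simpa only [sub_sub_cancel, sub_zero] using h3
  have hc : ∀ k, q (z' k) = q (z' 0) := fun k => tendsto_nhds_unique (hval k) (hval 0)
  refine ⟨q (z' 0), ?_⟩
  have hp'H := hKH _ hp'K
  have hzt : Tendsto z' atTop (𝓝[≠] p') := by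
    rw [tendsto_nhdsWithin_iff]
    refine ⟨?_, Eventually.of_forall fun k => ?_⟩
    · rw [tendsto_iff_dist_tendsto_zero]
      refine hrlim.congr fun k => ?_
      rw [dist_comm, hd' k]
    · intro h
      have h1 := hd' k
      rw [mem_singleton_iff.1 h, dist_self] at h1
      exact (hr0 k).ne h1
  have hfr : ∃ᶠ y in 𝓝[≠] p', q y = (fun _ : ℂ => q (z' 0)) y :=
    hzt.frequently (Frequently.of_forall fun k => hc k)
  have hconv : Convex ℝ Hm := convex_halfSpace_im_lt 0
  have hconn : IsPreconnected Hm := hconv.isPreconnected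
  have hE := AnalyticOnNhd.eqOn_of_preconnected_of_frequently_eq
    ((hW.hol q hq).analyticOnNhd hop) analyticOnNhd_const hconn hp'H hfr
  exact fun y hy => hE hy

end PorTR
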