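import Pool.Agent.Lib.MP_ae5b4e_an_TR.Dich
import Pool.Agent.Lib.MP_ae5b4e_an_TR.Flat

open Complex Filter Topology Set

namespace PorTR

namespace CountAux

/-- first time at distance `1` -/
theorem first {l : ℝ → ℂ} {a b : ℝ} (hab : a ≤ b) (hl : ContinuousOn l (Icc a b))
    (h1 : 1 ≤ dist (l a) (l b)) :
    ∃ s ∈ Icc a b, dist (l a) (l s) = 1 ∧ ∀ u ∈ Icc a s, dist (l a) (l u) ≤ 1 := by
  have hf : ContinuousOn (fun s => dist (l a) (l s)) (Icc a b) :=
    fun s hs => (tendsto_const_nhds (x := l a)).dist (hl s hs)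
  have key : ∀ s ∈ Icc a b, 1 ≤ dist (l a) (l s) → ∃ u ∈ Icc a s, dist (l a) (l u) = 1 := by
    intro s hs h
    have h2 : (1 : ℝ) ∈ Icc (dist (l a) (l a)) (dist (l a) (l s)) := by
      rw [dist_self]; exact ⟨zero_le_one, h⟩
    obtain ⟨u, hu, e⟩ := intermediate_value_Icc hs.1
      (hf.mono (Icc_subset_Icc_right hs.2)) h2
    exact ⟨u, hu, e⟩
  obtain ⟨u0, hu0, e0⟩ := key b ⟨hab, le_refl _⟩ h1
  have hcl : IsClosed (Icc a b ∩ (fun s => dist (l a) (l s)) ⁻¹' {1}) :=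
    hf.preimage_isClosed_of_isClosed isClosed_Icc isClosed_singleton
  have hcp : IsCompact (Icc a b ∩ (fun s => dist (l a) (l s)) ⁻¹' {1}) :=
    isCompact_Icc.of_isClosed_subset hcl inter_subset_left
  obtain ⟨s, hs, hmin⟩ := hcp.exists_isLeast ⟨u0, hu0, e0⟩
  refine ⟨s, hs.1, hs.2, fun u hu => ?_⟩
  by_contra hc
  push Not at hc
  obtain ⟨v, hv, ev⟩ := key u ⟨hu.1, hu.2.trans hs.1.2⟩ hc.le
  have h3 : s ≤ v := hmin ⟨⟨hv.1, hv.2.trans (hu.2.trans hs.1.2)⟩, ev⟩
  have h4 : u = v := le_antisymm (hu.2.trans h3) hv.2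
  rw [h4] at hc
  rw [ev] at hc
  exact lt_irrefl _ hc

end CountAux

/-- COUNTING LEMMA (for Lemma D). There is `N0` such that for every `q ∈ W`, every trajectory `l`
starting at depth `≥ 2 d0` with `|q P| < kap`, and all times `0 ≤ t 0 < t 1 < .. < t n` at which the
depth of `l` is `≤ C'` and with `dist (l (t i)) (l (t (i + 1))) ≥ 1`, one has `n ≤ N0`.

Proof. `c := c (1, C' + 1)` from `osc`, applied on a subarc of `l | Icc (t i) (t (i + 1))`: let `s` be
the first time after `t i` at which `dist (l (t i)) (l s) = 1`, `s ≤ t (i + 1)`; on `Icc (t i) s` the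
arc is within distance `1` of `l (t i)`, so its depth is `≤ C' + 1` and `> d0` (`Traj.deep`). `osc`:
some `u ∈ Icc (t i) s` has `c ≤ ‖q (l u) - q (l (t i))‖ = |q P| (exp (- 2 t i) - exp (- 2 u)) ≤
|q P| (exp (- 2 t i) - exp (- 2 t (i + 1)))`. Sum over `i < n`: `n * c ≤ |q P| < kap`. Take
`N0 := ⌈kap / c⌉`. -/
theorem Fam.count {W : Set (ℂ → ℂ)} {C d0 Ce kap : ℝ} (F : Fam W C d0 Ce kap) (C' : ℝ) :
    ∃ N0 : ℕ, ∀ q ∈ W, ∀ (P : ℂ) (l : ℝ → ℂ), Traj q P l → 2 * d0 ≤ -P.im → ‖q P‖ < kap →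
      ∀ (n : ℕ) (t : ℕ → ℝ), 0 ≤ t 0 → (∀ i < n, t i < t (i + 1)) →
      (∀ i ≤ n, -(l (t i)).im ≤ C') → (∀ i < n, 1 ≤ dist (l (t i)) (l (t (i + 1)))) → n ≤ N0 := by
  obtain ⟨c, hc, H⟩ := F.osc 1 one_pos (C' + 1)
  refine ⟨⌈kap / c⌉₊, fun q hq P l hl hP hk n t ht0 hti hd h1 => ?_⟩
  have ht : ∀ i ≤ n, 0 ≤ t i := by
    intro i
    induction i with
    | zero => intro _; exact ht0
    | succ i ih => intro hi; exact (ih (by omega)).trans (hti i (by omega)).le
  have step : ∀ i < n, c ≤ ‖q P‖ * (Real.exp (-2 * t i) - Real.exp (-2 * t (i + 1))) := by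
    intro i hi
    have ha := ht i hi.le
    have hab := (hti i hi).le
    have hcont : ContinuousOn l (Icc (t i) (t (i + 1))) :=
      hl.cont.mono (fun s hs => ha.trans hs.1)
    obtain ⟨s, hs, e1, hle⟩ := CountAux.first hab hcont (h1 i hi)
    have hmaps : MapsTo l (Icc (t i) s) (Strip d0 (C' + 1)) := by
      intro u hu
      have h2 := Traj.deep F hq hP hk hl u (ha.trans hu.1)
      have h3 := hle u hu
      have h4 : |(l (t i) - l u).im| ≤ ‖l (t i) - l u‖ := Complex.abs_im_le_norm _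
      rw [dist_eq_norm] at h3
      have h5 := hd i hi.le
      have h6 := (abs_le.1 (h4.trans h3))
      rw [Complex.sub_im] at h6
      exact ⟨h2.le, by linarith [h6.1, h6.2]⟩
    obtain ⟨u, hu, hcu⟩ := H q hq (t i) s l hs.1 (hcont.mono (Icc_subset_Icc_right hs.2)) hmaps
      e1.ge
    rw [hl.val u (ha.trans hu.1), hl.val (t i) ha, dist_eq_norm, ← mul_sub, norm_mul,
      ← Complex.ofReal_sub, Complex.norm_real, Real.norm_eq_abs] at hcu
    have h7 : Real.exp (-2 * u) ≤ Real.exp (-2 * t i) :=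
      Real.exp_le_exp.2 (by linarith [hu.1])
    have h8 : Real.exp (-2 * t (i + 1)) ≤ Real.exp (-2 * u) :=
      Real.exp_le_exp.2 (by linarith [hu.2, hs.2])
    rw [abs_of_nonpos (by linarith)] at hcu
    refine hcu.trans (mul_le_mul_of_nonneg_left (by linarith) (norm_nonneg _))
  have sum : ∀ m ≤ n, (m : ℝ) * c ≤
      ‖q P‖ * (Real.exp (-2 * t 0) - Real.exp (-2 * t m)) := by
    intro m
    induction m with
    | zero => intro _; simp
    | succ m ih =>
      intro hm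
      have h2 := ih (by omega)
      have h3 := step m (by omega)
      push_cast
      nlinarith [h2, h3]
  have h9 := sum n (le_refl _)
  have h10 : Real.exp (-2 * t 0) ≤ 1 := by
    rw [Real.exp_le_one_iff]; linarith
  have h11 : ‖q P‖ * (Real.exp (-2 * t 0) - Real.exp (-2 * t n)) ≤ ‖q P‖ := by
    have := Real.exp_pos (-2 * t n)
    calc _ ≤ ‖q P‖ * 1 := mul_le_mul_of_nonneg_left (by linarith) (norm_nonneg _)
      _ = _ := mul_one _
  have h12 : (n : ℝ) < kap / c := by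
    rw [lt_div_iff₀ hc]; linarith
  have h13 : (n : ℝ) < (⌈kap / c⌉₊ : ℝ) := h12.trans_le (Nat.le_ceil _)
  exact_mod_cast h13.le

end PorTR
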