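import Pool.Agent.Lib.MP_ae5b4e_an_TR.Defs

open Complex Filter Topology Set

namespace PorTR

theorem first_hit {f : ℝ → ℝ} {a b β : ℝ} (hab : a ≤ b) (hf : ContinuousOn f (Icc a b))
    (ha : f a ≤ β) (hb : β ≤ f b) : ∃ u ∈ Icc a b, f u = β ∧ ∀ v ∈ Icc a u, f v ≤ β := by
  have hS : IsCompact (Icc a b ∩ f ⁻¹' Ici β) :=
    isCompact_Icc.of_isClosed_subset (hf.preimage_isClosed_of_isClosed isClosed_Icc isClosed_Ici)
      inter_subset_left
  obtain ⟨u, hu, hmin⟩ := hS.exists_isLeast ⟨b, ⟨hab, le_rfl⟩, hb⟩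
  have hfu : f u = β := by
    obtain ⟨v, hv, hfv⟩ := intermediate_value_Icc hu.1.1
      (hf.mono (Icc_subset_Icc_right hu.1.2)) ⟨ha, hu.2⟩
    have h1 : u ≤ v := hmin ⟨⟨hv.1, hv.2.trans hu.1.2⟩, hfv.ge⟩
    rw [le_antisymm h1 hv.2]
    exact hfv
  refine ⟨u, hu.1, hfu, fun v hv => ?_⟩
  by_contra hcon
  push Not at hcon
  have h1 : u ≤ v := hmin ⟨⟨hv.1, hv.2.trans hu.1.2⟩, hcon.le⟩
  rw [le_antisymm hv.2 h1] at hcon
  linarith

theorem last_hit {f : ℝ → ℝ} {a b β : ℝ} (hab : a ≤ b) (hf : ContinuousOn f (Icc a b))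
    (hb : f b ≤ β) (ha : β ≤ f a) : ∃ u ∈ Icc a b, f u = β ∧ ∀ v ∈ Icc u b, f v ≤ β := by
  have hS : IsCompact (Icc a b ∩ f ⁻¹' Ici β) :=
    isCompact_Icc.of_isClosed_subset (hf.preimage_isClosed_of_isClosed isClosed_Icc isClosed_Ici)
      inter_subset_left
  obtain ⟨u, hu, hmax⟩ := hS.exists_isGreatest ⟨a, ⟨le_rfl, hab⟩, ha⟩
  have hfu : f u = β := by
    obtain ⟨v, hv, hfv⟩ := intermediate_value_Icc' hu.1.2
      (hf.mono (Icc_subset_Icc_left hu.1.1)) ⟨hb, hu.2⟩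
    have h1 : v ≤ u := hmax ⟨⟨hu.1.1.trans hv.1, hv.2⟩, hfv.ge⟩
    rw [le_antisymm hv.1 h1]
    exact hfv
  refine ⟨u, hu.1, hfu, fun v hv => ?_⟩
  by_contra hcon
  push Not at hcon
  have h1 : v ≤ u := hmax ⟨⟨hu.1.1.trans hv.1, hv.2⟩, hcon.le⟩
  rw [le_antisymm h1 hv.1] at hcon
  linarith

/-- (2.12)(i) An arc which starts at depth `≥ 2 d0` and on which `|q| < kap` stays at depth `> d0`.

Proof. Suppose the depth at `s ∈ Icc a b` is `≤ d0`. The depth is continuous: let `s2` be the first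
point of `Icc a s` with depth `d0` (exists by the intermediate value theorem; or any point of depth
exactly `d0`, then choose `s1 :=` the last point of `Icc a s2` with depth `2 * d0`, so that on
`Icc s1 s2` the depth is `≤ 2 * d0`; take `s2` := the first point after `s1` with depth `d0`). On
`Icc s1 s2` the depth is in `[d0, 2 d0]`, so the arc is in `Strip d0 Ce` (`2 d0 < Ce`) and `|q| < kap`:
`small` gives `dist (γ s1) (γ s2) < d0`, but the depths differ by `d0`. -/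
theorem Fam.deep {W : Set (ℂ → ℂ)} {C d0 Ce kap : ℝ} (F : Fam W C d0 Ce kap) {q : ℂ → ℂ}
    (hq : q ∈ W) {a b : ℝ} {γ : ℝ → ℂ} (hγ : ContinuousOn γ (Icc a b))
    (ha : 2 * d0 ≤ -(γ a).im) (hk : ∀ s ∈ Icc a b, ‖q (γ s)‖ < kap) :
    ∀ s ∈ Icc a b, d0 < -(γ s).im := by
  intro s hs
  by_contra hcon
  push Not at hcon
  have hd0 := F.d0_pos
  have hD : ContinuousOn (fun u => -(γ u).im) (Icc a b) :=
    (Complex.continuous_im.comp_continuousOn hγ).neg
  obtain ⟨s2, hs2, he2, hle2⟩ := first_hit (f := fun u => (γ u).im) (β := -d0) hs.1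
    ((Complex.continuous_im.comp_continuousOn hγ).mono (Icc_subset_Icc_right hs.2))
    (by linarith) (by linarith)
  obtain ⟨s1, hs1, he1, hle1⟩ := last_hit (f := fun u => -(γ u).im) (β := 2 * d0) hs2.1
    (hD.mono (Icc_subset_Icc_right (hs2.2.trans hs.2))) (by linarith) ha
  have hsub : Icc s1 s2 ⊆ Icc a b := Icc_subset_Icc hs1.1 (hs2.2.trans hs.2)
  have h := F.small q hq s1 s2 γ hs1.2 (hγ.mono hsub)
    (fun u hu => ⟨by have := hle2 u ⟨hs1.1.trans hu.1, hu.2⟩; linarith,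
      (hle1 u hu).trans F.d0_lt.le⟩) (fun u hu => hk u (hsub hu))
  have h1 : |(γ s1 - γ s2).im| ≤ dist (γ s1) (γ s2) := by
    rw [dist_eq_norm]
    exact Complex.abs_im_le_norm _
  rw [Complex.sub_im] at h1
  have h2 : (γ s1).im - (γ s2).im = -d0 := by linarith
  rw [h2, abs_neg, abs_of_pos hd0] at h1
  linarith

/-- An upper bound for the depth in terms of `|q|`: `|q z| ≥ r > 0` implies depth `≤ √(C / r)`.

Proof. `r ≤ ‖q z‖ ≤ C / z.im ^ 2`. -/
theorem Fam.depth_le {W : Set (ℂ → ℂ)} {C d0 Ce kap : ℝ} (F : Fam W C d0 Ce kap) {q : ℂ → ℂ}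
    (hq : q ∈ W) {z : ℂ} (hz : z ∈ Hm) {r : ℝ} (hr : 0 < r) (h : r ≤ ‖q z‖) :
    -z.im ≤ Real.sqrt (C / r) := by
  have hz0 : z.im < 0 := hz
  have h1 : 0 < z.im ^ 2 := by nlinarith
  have h2 : r ≤ C / z.im ^ 2 := h.trans (F.bound q hq z hz)
  have h3 : z.im ^ 2 ≤ C / r := by
    rw [le_div_iff₀ h1] at h2
    rw [le_div_iff₀ hr]
    linarith
  exact (neg_le_abs _).trans (Real.abs_le_sqrt h3)

/-- Cauchy criterion: if an arc on `[a, T)` (`T ≤ ∞`, formulated on a set `S` = `Ico a T` or `Ici a`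
and a filter) stays in a strip `Strip d0 C'` and `q` converges along it, then the arc converges.
Version for `T` finite.

Proof. Let `δ > 0` and `c = c (δ, C')` from `osc`. `q (l t)` is Cauchy as `t → T`: there is `t0 < T`
with `dist (q (l t)) (q (l t')) < c` for `t, t' ∈ [t0, T)`. By `osc` on the arcs `l | Icc t t'`,
`dist (l t) (l t') < δ` for all `t0 ≤ t ≤ t' < T`. So `l` is Cauchy as `t → T`, converges to a point
`z` of the closed strip (`cauchySeq`/`Cauchy` map filter, `CompleteSpace ℂ`), which is in `Hm`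
because `d0 > 0`. -/
theorem Fam.tendsto_left {W : Set (ℂ → ℂ)} {C d0 Ce kap : ℝ} (F : Fam W C d0 Ce kap) {q : ℂ → ℂ}
    (hq : q ∈ W) {a T C' : ℝ} (haT : a < T) {l : ℝ → ℂ} (hl : ContinuousOn l (Ico a T))
    (hs : ∀ t ∈ Ico a T, l t ∈ Strip d0 C') {w : ℂ}
    (hw : Tendsto (fun t => q (l t)) (𝓝[<] T) (𝓝 w)) :
    ∃ z ∈ Hm, Tendsto l (𝓝[<] T) (𝓝 z) := by
  have hC : Cauchy (map l (𝓝[<] T)) := by
    rw [Metric.cauchy_iff]
    refine ⟨inferInstance, fun δ hδ => ?_⟩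
    obtain ⟨c, hc, hosc⟩ := F.osc δ hδ C'
    have e1 : ∀ᶠ t in 𝓝[<] T, dist (q (l t)) w < c / 2 :=
      (Metric.tendsto_nhds.mp hw) _ (by linarith)
    have e2 : ∀ᶠ t in 𝓝[<] T, a < t :=
      mem_of_superset (Ioo_mem_nhdsLT haT) fun t ht => ht.1
    obtain ⟨t0, ht0, hsub⟩ := (mem_nhdsLT_iff_exists_Ioo_subset).mp (e1.and e2)
    have key : ∀ t ∈ Ioo t0 T, ∀ t' ∈ Ioo t0 T, t ≤ t' → dist (l t) (l t') < δ := by
      intro t ht t' ht' htt
      by_contra hcon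
      push Not at hcon
      have hsub2 : Icc t t' ⊆ Ico a T := fun u hu =>
        ⟨(hsub ht).2.le.trans hu.1, hu.2.trans_lt ht'.2⟩
      obtain ⟨u, hu, hcu⟩ := hosc q hq t t' l htt (hl.mono hsub2) (fun u hu => hs u (hsub2 hu)) hcon
      have h1 : dist (q (l u)) w < c / 2 := (hsub ⟨ht.1.trans_le hu.1, hu.2.trans_lt ht'.2⟩).1
      have h2 : dist (q (l t)) w < c / 2 := (hsub ht).1
      have := dist_triangle_right (q (l u)) (q (l t)) w
      linarith
    refine ⟨l '' Ioo t0 T, image_mem_map (Ioo_mem_nhdsLT ht0), ?_⟩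
    rintro _ ⟨t, ht, rfl⟩ _ ⟨t', ht', rfl⟩
    rcases le_total t t' with h | h
    · exact key t ht t' ht' h
    · rw [dist_comm]
      exact key t' ht' t ht h
  obtain ⟨z, hz⟩ := CompleteSpace.complete hC
  have hz' : Tendsto l (𝓝[<] T) (𝓝 z) := hz
  refine ⟨z, ?_, hz'⟩
  have hcl : IsClosed {z : ℂ | d0 ≤ -z.im} :=
    isClosed_le continuous_const Complex.continuous_im.neg
  have h1 : z ∈ {z : ℂ | d0 ≤ -z.im} := by
    refine hcl.mem_of_tendsto hz' ?_
    exact mem_of_superset (Ico_mem_nhdsLT haT) fun t ht => (hs t ht).1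
  have h2 : d0 ≤ -z.im := h1
  have := F.d0_pos
  change z.im < 0
  linarith

end PorTR
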