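import Pool.Agent.Lib.MP_ae5b4e_an_TR.Defs

open Complex Filter Topology Set

namespace PorTR

/-- Infinite time: let `l` be an arc on `[0, ∞)` at depth `≥ d0` with `q (l t) → 0`. Then either the
depth tends to infinity or `l` converges to a point of `Hm`.

Proof. Suppose the depth does not tend to infinity: there is `C1` and arbitrarily large `t` with
depth `≤ C1`. Let `0 < δ ≤ 1` and `c = c (δ, C1 + 1)` (`osc`). Choose `t0` with depth `≤ C1` at `t0`
and `‖q (l t)‖ < c / 2` for `t ≥ t0`. CLAIM: `dist (l t0) (l t) < δ` for all `t ≥ t0`. Otherwise let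
`t1` be the first `t ≥ t0` with `dist (l t0) (l t1) = δ` (intermediate value); on `Icc t0 t1` the arc
is within distance `δ ≤ 1` of `l t0`, so in `Strip d0 (C1 + 1)`, and `osc` gives `s` with
`c ≤ dist (q (l s)) (q (l t0)) < c`: contradiction. So `l` is Cauchy at infinity; its limit has depth
`≥ d0`. -/
theorem Fam.tendsto_top {W : Set (ℂ → ℂ)} {C d0 Ce kap : ℝ} (F : Fam W C d0 Ce kap) {q : ℂ → ℂ}
    (hq : q ∈ W) {l : ℝ → ℂ} (hl : ContinuousOn l (Ici 0)) (hs : ∀ t, 0 ≤ t → d0 ≤ -(l t).im)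
    (hw : Tendsto (fun t => q (l t)) atTop (𝓝 0)) :
    Tendsto (fun t => (l t).im) atTop atBot ∨ ∃ z ∈ Hm, Tendsto l atTop (𝓝 z) := by
  by_cases hlim : Tendsto (fun t => (l t).im) atTop atBot
  · exact Or.inl hlim
  right
  rw [tendsto_atBot] at hlim
  push Not at hlim
  obtain ⟨b, hb⟩ := hlim
  have hfreq : ∃ᶠ t in atTop, b < (l t).im := by
    simpa using hb
  have claim : ∀ δ : ℝ, 0 < δ → δ ≤ 1 → ∃ t0, 0 ≤ t0 ∧ ∀ t ≥ t0, dist (l t) (l t0) < δ := by
    intro δ hδ hδ1
    obtain ⟨c, hc, hosc⟩ := F.osc δ hδ (-b + 1)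
    have e1 : ∀ᶠ t in atTop, dist (q (l t)) 0 < c / 2 :=
      (Metric.tendsto_nhds.mp hw) _ (by linarith)
    obtain ⟨T1, hT1⟩ := eventually_atTop.mp e1
    obtain ⟨t0, ht0, hbt⟩ := (frequently_atTop.mp hfreq) (max T1 0)
    have h0 : 0 ≤ t0 := (le_max_right _ _).trans ht0
    refine ⟨t0, h0, fun t ht => ?_⟩
    by_contra hcon
    push Not at hcon
    have hlc : ContinuousOn l (Icc t0 t) := hl.mono fun u hu => h0.trans hu.1
    have hfc : ContinuousOn (fun u => dist (l u) (l t0)) (Icc t0 t) :=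
      continuous_dist.comp_continuousOn (hlc.prodMk continuousOn_const)
    have hS : IsCompact (Icc t0 t ∩ (fun u => dist (l u) (l t0)) ⁻¹' Ici δ) :=
      isCompact_Icc.of_isClosed_subset
        (hfc.preimage_isClosed_of_isClosed isClosed_Icc isClosed_Ici) inter_subset_left
    obtain ⟨t1, ht1, hmin⟩ := hS.exists_isLeast ⟨t, ⟨ht, le_rfl⟩, hcon⟩
    have hft : dist (l t1) (l t0) = δ := by
      obtain ⟨v, hv, hfv⟩ := intermediate_value_Icc (f := fun u => dist (l u) (l t0)) ht1.1.1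
        (hfc.mono (Icc_subset_Icc_right ht1.1.2)) (show δ ∈ Icc _ _ from
          ⟨by simp only [dist_self]; exact hδ.le, ht1.2⟩)
      have h1 : t1 ≤ v := hmin ⟨⟨hv.1, hv.2.trans ht1.1.2⟩, hfv.ge⟩
      rw [le_antisymm h1 hv.2]
      exact hfv
    have hle : ∀ v ∈ Icc t0 t1, dist (l v) (l t0) ≤ δ := by
      intro v hv
      by_contra hcon
      push Not at hcon
      have h1 : t1 ≤ v := hmin ⟨⟨hv.1, hv.2.trans ht1.1.2⟩, hcon.le⟩
      rw [le_antisymm hv.2 h1, hft] at hcon
      exact lt_irrefl _ hcon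
    obtain ⟨u, hu, hcu⟩ := hosc q hq t0 t1 l ht1.1.1
      (hlc.mono (Icc_subset_Icc_right ht1.1.2)) (fun v hv => by
        refine ⟨hs v (h0.trans hv.1), ?_⟩
        have h1 : |(l v - l t0).im| ≤ dist (l v) (l t0) := by
          rw [dist_eq_norm]
          exact Complex.abs_im_le_norm _
        rw [Complex.sub_im] at h1
        have h2 := (abs_le.mp (h1.trans (hle v hv))).1
        linarith) (by rw [dist_comm]; exact hft.ge)
    have h1 := hT1 u (((le_max_left _ _).trans ht0).trans hu.1)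
    have h2 := hT1 t0 ((le_max_left _ _).trans ht0)
    have := dist_triangle_right (q (l u)) (q (l t0)) 0
    linarith
  have hcs : CauchySeq l := by
    rw [Metric.cauchySeq_iff']
    intro ε hε
    obtain ⟨t0, -, h⟩ := claim (min ε 1) (lt_min hε one_pos) (min_le_right _ _)
    exact ⟨t0, fun t ht => (h t ht).trans_le (min_le_left _ _)⟩
  obtain ⟨z, hz⟩ := cauchySeq_tendsto_of_complete hcs
  refine ⟨z, ?_, hz⟩
  have hcl : IsClosed {z : ℂ | d0 ≤ -z.im} :=
    isClosed_le continuous_const Complex.continuous_im.neg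
  have h1 : z ∈ {z : ℂ | d0 ≤ -z.im} := by
    refine hcl.mem_of_tendsto hz ?_
    filter_upwards [eventually_ge_atTop 0] with t ht
    exact hs t ht
  have h2 : d0 ≤ -z.im := h1
  have := F.d0_pos
  change z.im < 0
  linarith

end PorTR
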