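import Pool.Agent.Lib.MP_ae5b4e_an_TR.Lift
import Pool.Agent.Lib.MP_ae5b4e_an_TR.DeepA
import Pool.Agent.Lib.MP_ae5b4e_an_TR.TopB

open Complex Filter Topology Set

namespace PorTR

theorem tendsto_exp_zero (c : ℂ) :
    Tendsto (fun t : ℝ => c * ((Real.exp (-2 * t) : ℝ) : ℂ)) atTop (𝓝 0) := by
  have h1 : Tendsto (fun t : ℝ => Real.exp (-2 * t)) atTop (𝓝 0) := by
    apply Real.tendsto_exp_atBot.comp
    exact tendsto_id.const_mul_atTop_of_neg (by norm_num)
  have h2 : Tendsto (fun t : ℝ => ((Real.exp (-2 * t) : ℝ) : ℂ)) atTop (𝓝 0) := by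
    have := (Complex.continuous_ofReal.tendsto 0).comp h1
    rw [Complex.ofReal_zero] at this
    exact this
  simpa using h2.const_mul c

/-- (2.12) DICHOTOMY. Let `P` have depth `≥ 2 d0`, `0 < |q P| < kap`, and let there be no critical
point `z` of `q` in `Hm` with `q z = r * q P`, `0 < r ≤ 1`. Then the trajectory of `P` exists for all
`t ≥ 0` and is finite or infinite.

Proof. `g t := q P * exp (- 2 t)`. `exists_lift`: `hreg` holds by hypothesis (`r = exp (- 2 t)`).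
`hlim`: for a partial lift `l` on `[0, T)`: `|q (l t)| = |q P| exp (- 2 t) < kap`, so depth `> d0` by
`Fam.deep` (on `Icc 0 t`), and depth `≤ √(C / (|q P| exp (- 2 T)))` by `Fam.depth_le`;
`Fam.tendsto_left` (`q (l t) = g t → g T`). The lift `l` on `[0, ∞)` is a `Traj`; `Fam.deep` and
`Fam.tendsto_top` (`g t → 0`) give the alternative. -/
theorem Fam.dich {W : Set (ℂ → ℂ)} {C d0 Ce kap : ℝ} (F : Fam W C d0 Ce kap) {q : ℂ → ℂ}
    (hq : q ∈ W) {P : ℂ} (hP : 2 * d0 ≤ -P.im) (h0 : q P ≠ 0) (hk : ‖q P‖ < kap)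
    (hreg : ∀ z ∈ Hm, deriv q z = 0 → ∀ r : ℝ, 0 < r → r ≤ 1 → q z ≠ r * q P) :
    FinTraj q P ∨ InfTraj q P := by
  have hd0 := F.d0_pos
  have hPH : P ∈ Hm := by
    change P.im < 0
    linarith
  have hqP0 : 0 < ‖q P‖ := norm_pos_iff.mpr h0
  set g : ℝ → ℂ := fun t => q P * ((Real.exp (-2 * t) : ℝ) : ℂ) with hg
  have hgc : Continuous g := by fun_prop
  have hgn : ∀ t, ‖g t‖ = ‖q P‖ * Real.exp (-2 * t) := by
    intro t
    simp only [hg]
    rw [norm_mul, Complex.norm_real, Real.norm_of_nonneg (Real.exp_pos _).le]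
  have hglt : ∀ t, 0 ≤ t → ‖g t‖ < kap := by
    intro t ht
    rw [hgn]
    have h1 : Real.exp (-2 * t) ≤ 1 := Real.exp_le_one_iff.mpr (by linarith)
    calc ‖q P‖ * Real.exp (-2 * t) ≤ ‖q P‖ * 1 := by gcongr
      _ < kap := by linarith
  have hregg : ∀ z ∈ Hm, ∀ t, 0 ≤ t → q z = g t → deriv q z ≠ 0 := by
    intro z hz t ht hqz hd
    refine hreg z hz hd (Real.exp (-2 * t)) (Real.exp_pos _)
      (Real.exp_le_one_iff.mpr (by linarith)) ?_
    rw [hqz, mul_comm]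
  obtain ⟨l, hl0, hlc, hlv⟩ := exists_lift (F.hol q hq) hgc hPH (by simp [hg]) hregg (by
    intro T hT l hl0 hlc hlv
    have hdeep : ∀ t ∈ Ico 0 T, d0 < -(l t).im := by
      intro t ht
      have hsub : Icc 0 t ⊆ Ico 0 T := fun u hu => ⟨hu.1, hu.2.trans_lt ht.2⟩
      refine F.deep hq (hlc.mono hsub) (by rw [hl0]; exact hP) (fun s hs => ?_) t ⟨ht.1, le_rfl⟩
      rw [(hlv s (hsub hs)).2]
      exact hglt s hs.1
    refine F.tendsto_left hq hT hlc
      (C' := Real.sqrt (C / (‖q P‖ * Real.exp (-2 * T)))) (fun t ht => ⟨(hdeep t ht).le, ?_⟩)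
      (w := g T) ?_
    · refine F.depth_le hq (hlv t ht).1 (by positivity) ?_
      rw [(hlv t ht).2, hgn]
      have h1 : Real.exp (-2 * T) ≤ Real.exp (-2 * t) := Real.exp_le_exp.mpr (by linarith [ht.2])
      gcongr
    · have h1 : Tendsto g (𝓝[<] T) (𝓝 (g T)) := (hgc.tendsto T).mono_left nhdsWithin_le_nhds
      refine h1.congr' ?_
      exact mem_of_superset (Ico_mem_nhdsLT hT) fun t ht => ((hlv t ht).2).symm)
  have htraj : Traj q P l :=
    ⟨hl0, hlc, fun t ht => (hlv t ht).1, fun t ht => (hlv t ht).2,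
      fun t ht => hregg _ (hlv t ht).1 t ht (hlv t ht).2⟩
  have hdeep : ∀ t, 0 ≤ t → d0 < -(l t).im := by
    intro t ht
    refine F.deep hq (hlc.mono Icc_subset_Ici_self) (by rw [hl0]; exact hP) (fun s hs => ?_) t
      ⟨ht, le_rfl⟩
    rw [(hlv s hs.1).2]
    exact hglt s hs.1
  have hw : Tendsto (fun t => q (l t)) atTop (𝓝 0) := by
    have h1 : Tendsto g atTop (𝓝 0) := tendsto_exp_zero (q P)
    refine h1.congr' ?_
    filter_upwards [eventually_ge_atTop 0] with t ht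
    exact ((hlv t ht).2).symm
  rcases F.tendsto_top hq hlc (fun t ht => (hdeep t ht).le) hw with h | ⟨z, hz, h⟩
  · exact Or.inr ⟨l, htraj, h⟩
  · exact Or.inl ⟨l, z, htraj, hz, h⟩

/-- Depth of a trajectory. -/
theorem Traj.deep {W : Set (ℂ → ℂ)} {C d0 Ce kap : ℝ} (F : Fam W C d0 Ce kap) {q : ℂ → ℂ}
    (hq : q ∈ W) {P : ℂ} (hP : 2 * d0 ≤ -P.im) (hk : ‖q P‖ < kap) {l : ℝ → ℂ}
    (h : Traj q P l) : ∀ t, 0 ≤ t → d0 < -(l t).im := by
  intro t ht
  refine F.deep hq (h.cont.mono Icc_subset_Ici_self) (by rw [h.start]; exact hP)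
    (fun s hs => ?_) t ⟨ht, le_rfl⟩
  rw [h.val s hs.1, norm_mul, Complex.norm_real, Real.norm_of_nonneg (Real.exp_pos _).le]
  have h1 : Real.exp (-2 * s) ≤ 1 := Real.exp_le_one_iff.mpr (by linarith [hs.1])
  calc ‖q P‖ * Real.exp (-2 * s) ≤ ‖q P‖ * 1 := by gcongr
    _ < kap := by linarith

/-- The limit of a finite trajectory is a zero of `q`. -/
theorem Traj.lim_zero {q : ℂ → ℂ} (hq : DifferentiableOn ℂ q Hm) {P z : ℂ} {l : ℝ → ℂ}
    (h : Traj q P l) (hz : z ∈ Hm) (hl : Tendsto l atTop (𝓝 z)) : q z = 0 := by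
  have hop : IsOpen Hm := isOpen_lt Complex.continuous_im continuous_const
  have h1 : Tendsto (fun t => q (l t)) atTop (𝓝 (q z)) :=
    ((hq.continuousOn.continuousAt (hop.mem_nhds hz)).tendsto).comp hl
  have h2 : Tendsto (fun t => q (l t)) atTop (𝓝 0) := by
    refine (tendsto_exp_zero (q P)).congr' ?_
    filter_upwards [eventually_ge_atTop 0] with t ht
    exact (h.val t ht).symm
  exact tendsto_nhds_unique h1 h2

end PorTR
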