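import Pool.Agent.Lib.MP_ae5b4e_an_TR.Uniq

open Complex Filter Topology Set

namespace PorTR

theorem isOpen_Hm_lift : IsOpen Hm := isOpen_lt Complex.continuous_im continuous_const

/-- Local lifting: near a regular point `z` of `q` with `q z = g s` a continuous path `g` lifts: there
is `ε > 0` and a continuous path `m` on `Icc (s - ε) (s + ε)`, `m s = z`, in `Hm`, with `q (m t) = g t`.

Proof. `m t := local inverse of q at z, applied to g t`. `HasStrictDerivAt.localInverse`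
(`HasStrictDerivAt.toOpenPartialHomeomorph` has an open target containing `q z`, and the inverse is
continuous on the target); continuity of `g` at `s`, and `m t ∈ Hm` near `s` as `Hm` is open. -/
theorem exists_local_lift {q : ℂ → ℂ} (hq : DifferentiableOn ℂ q Hm) {g : ℝ → ℂ}
    (hg : Continuous g) {s : ℝ} {z : ℂ} (hz : z ∈ Hm) (hd : deriv q z ≠ 0) (hs : q z = g s) :
    ∃ ε : ℝ, 0 < ε ∧ ∃ m : ℝ → ℂ, m s = z ∧ ContinuousOn m (Icc (s - ε) (s + ε)) ∧
      ∀ t ∈ Icc (s - ε) (s + ε), m t ∈ Hm ∧ q (m t) = g t := by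
  have han : AnalyticAt ℂ q z := hq.analyticAt (isOpen_Hm_lift.mem_nhds hz)
  have hstr : HasStrictDerivAt q (deriv q z) z := han.hasStrictDerivAt
  have hF := hstr.hasStrictFDerivAt_equiv hd
  set e := hF.toOpenPartialHomeomorph q with he
  have hsrc : z ∈ e.source := hF.mem_toOpenPartialHomeomorph_source
  have hcoe : ∀ x, e x = q x := fun x => by rw [he, hF.toOpenPartialHomeomorph_coe]
  have htgt : g s ∈ e.target := by
    rw [← hs, ← hcoe z]
    exact e.map_source hsrc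
  have hV : IsOpen (g ⁻¹' e.target) := e.open_target.preimage hg
  have hm : ContinuousOn (fun t => e.symm (g t)) (g ⁻¹' e.target) :=
    e.continuousOn_symm.comp hg.continuousOn (fun t ht => ht)
  have hms : e.symm (g s) = z := by
    rw [← hs, ← hcoe z]
    exact e.left_inv hsrc
  have hW : IsOpen (g ⁻¹' e.target ∩ (fun t => e.symm (g t)) ⁻¹' Hm) :=
    hm.isOpen_inter_preimage hV isOpen_Hm_lift
  have hsW : s ∈ g ⁻¹' e.target ∩ (fun t => e.symm (g t)) ⁻¹' Hm := by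
    refine ⟨htgt, ?_⟩
    show e.symm (g s) ∈ Hm
    rw [hms]
    exact hz
  obtain ⟨r, hr, hball⟩ := Metric.isOpen_iff.1 hW s hsW
  have hsub : Icc (s - r / 2) (s + r / 2) ⊆ g ⁻¹' e.target ∩ (fun t => e.symm (g t)) ⁻¹' Hm := by
    intro t ht
    refine hball ?_
    rw [Metric.mem_ball, Real.dist_eq, abs_lt]
    constructor <;> linarith [ht.1, ht.2]
  refine ⟨r / 2, by linarith, fun t => e.symm (g t), hms, hm.mono fun t ht => (hsub ht).1, ?_⟩
  intro t ht
  refine ⟨(hsub ht).2, ?_⟩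
  show q (e.symm (g t)) = g t
  rw [← hcoe]
  exact e.right_inv (hsub ht).1

/-- `l` is a lift on `[0, T]` -/
def Lft (q : ℂ → ℂ) (g : ℝ → ℂ) (P : ℂ) (T : ℝ) (l : ℝ → ℂ) : Prop :=
  l 0 = P ∧ ContinuousOn l (Icc 0 T) ∧ ∀ t ∈ Icc 0 T, l t ∈ Hm ∧ q (l t) = g t

theorem Lft.unique {q : ℂ → ℂ} (hq : DifferentiableOn ℂ q Hm) {g : ℝ → ℂ} {P : ℂ}
    (hreg : ∀ z ∈ Hm, ∀ t, 0 ≤ t → q z = g t → deriv q z ≠ 0) {T T' : ℝ} {l l' : ℝ → ℂ}
    (hTT : T ≤ T') (h0 : 0 ≤ T) (h : Lft q g P T l) (h' : Lft q g P T' l') :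
    ∀ t ∈ Icc 0 T, l t = l' t := by
  have hsub : Icc 0 T ⊆ Icc 0 T' := Icc_subset_Icc_right hTT
  refine eq_of_meet hq (s := 0) ⟨le_rfl, h0⟩ h.2.1 (h'.2.1.mono hsub)
    (fun t ht => (h.2.2 t ht).1) (fun t ht => hreg _ (h.2.2 t ht).1 t ht.1 (h.2.2 t ht).2)
    (fun t ht => ?_) (h.1.trans h'.1.symm)
  rw [(h.2.2 t ht).2, (h'.2.2 t (hsub ht)).2]

theorem Lft.mono {q : ℂ → ℂ} {g : ℝ → ℂ} {P : ℂ} {T T' : ℝ} {l : ℝ → ℂ}
    (hTT : T ≤ T') (h : Lft q g P T' l) : Lft q g P T l :=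
  ⟨h.1, h.2.1.mono (Icc_subset_Icc_right hTT), fun t ht => h.2.2 t (Icc_subset_Icc_right hTT ht)⟩

theorem Lft.extend {q : ℂ → ℂ} (hq : DifferentiableOn ℂ q Hm) {g : ℝ → ℂ} (hg : Continuous g)
    {P : ℂ} (hreg : ∀ z ∈ Hm, ∀ t, 0 ≤ t → q z = g t → deriv q z ≠ 0) {T : ℝ} (hT : 0 ≤ T)
    {l : ℝ → ℂ} (h : Lft q g P T l) : ∃ ε : ℝ, 0 < ε ∧ ∃ l' : ℝ → ℂ, Lft q g P (T + ε) l' := by
  have hTT : T ∈ Icc (0 : ℝ) T := ⟨hT, le_rfl⟩
  obtain ⟨ε, hε, m, hmT, hmc, hm⟩ := exists_local_lift hq hg (h.2.2 T hTT).1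
    (hreg _ (h.2.2 T hTT).1 T hT (h.2.2 T hTT).2) (h.2.2 T hTT).2
  classical
  refine ⟨ε, hε, fun t => if t ≤ T then l t else m t, ?_, ?_, ?_⟩
  · show (if (0 : ℝ) ≤ T then l 0 else m 0) = P
    rw [if_pos hT]
    exact h.1
  · have hU : Icc 0 (T + ε) = Icc 0 T ∪ Icc T (T + ε) :=
      (Icc_union_Icc_eq_Icc hT (by linarith)).symm
    rw [hU]
    refine ContinuousOn.union_of_isClosed ?_ ?_ isClosed_Icc isClosed_Icc
    · exact h.2.1.congr fun t ht => if_pos ht.2
    · refine (hmc.mono (Icc_subset_Icc_left (by linarith))).congr fun t ht => ?_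
      show (if t ≤ T then l t else m t) = m t
      split_ifs with htT
      · have : t = T := le_antisymm htT ht.1
        rw [this, hmT]
      · rfl
  · intro t ht
    show (if t ≤ T then l t else m t) ∈ Hm ∧ q (if t ≤ T then l t else m t) = g t
    split_ifs with htT
    · exact h.2.2 t ⟨ht.1, htT⟩
    · push Not at htT
      exact hm t ⟨by linarith, ht.2⟩

/-- gluing lifts -/
theorem Lft.glue {q : ℂ → ℂ} (hq : DifferentiableOn ℂ q Hm) {g : ℝ → ℂ} {P : ℂ}
    (hreg : ∀ z ∈ Hm, ∀ t, 0 ≤ t → q z = g t → deriv q z ≠ 0) {S : Set ℝ}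
    (hS0 : ∀ t ∈ S, 0 ≤ t) (hS1 : ∀ t ∈ S, ∃ T' ∈ S, t < T') (h0 : (0 : ℝ) ∈ S)
    (h : ∀ T ∈ S, ∃ l : ℝ → ℂ, Lft q g P T l) :
    ∃ L : ℝ → ℂ, L 0 = P ∧ ContinuousOn L S ∧ ∀ t ∈ S, L t ∈ Hm ∧ q (L t) = g t := by
  classical
  choose! F hF using h
  have hkey : ∀ T ∈ S, ∀ t ∈ S, t ≤ T → F t t = F T t := fun T hT t ht htT =>
    Lft.unique hq hreg htT (hS0 t ht) (hF t ht) (hF T hT) t ⟨hS0 t ht, le_rfl⟩
  refine ⟨fun t => F t t, (hF 0 h0).1, ?_, ?_⟩
  · intro t ht
    obtain ⟨T, hT, htT⟩ := hS1 t ht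
    have hc : ContinuousWithinAt (F T) (S ∩ Iio T) t := by
      have h1 := (hF T hT).2.1 t ⟨hS0 t ht, htT.le⟩
      refine h1.mono ?_
      rintro x ⟨hx, hxT⟩
      exact ⟨hS0 x hx, le_of_lt hxT⟩
    have hc2 : ContinuousWithinAt (fun t => F t t) (S ∩ Iio T) t :=
      hc.congr (fun x hx => hkey T hT x hx.1 (le_of_lt hx.2)) (hkey T hT t ht htT.le)
    rwa [continuousWithinAt_inter (Iio_mem_nhds htT)] at hc2
  · intro t ht
    exact (hF t ht).2.2 t ⟨hS0 t ht, le_rfl⟩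


/-- GLOBAL LIFTING. Let `g` be a continuous path on `[0, ∞)`, `q P = g 0`, `P ∈ Hm`; suppose that all
points `z ∈ Hm` with `q z = g t`, `t ≥ 0`, are regular, and that every partial lift on a half open
interval `[0, T)` (`T > 0`) converges to a point of `Hm` as `t → T`. Then there is a lift on `[0, ∞)`.

Proof. Let `A` be the set of `T ≥ 0` such that there is a continuous lift on `Icc 0 T` starting at
`P`. `0 ∈ A`; `A` is downward closed; lifts are unique (`eq_of_meet`), so the lifts on different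
intervals glue. `A` is open in `[0, ∞)` upwards: if `T ∈ A` then `exists_local_lift` at `s = T`,
`z = l T` gives a lift on `Icc 0 (T + ε)` (glue with `ite (t ≤ T)`). Suppose `A` is bounded, let `T`
be its supremum (`T > 0`); gluing gives a lift on `[0, T)`; by hypothesis it converges to `z ∈ Hm` as
`t → T`; set `l T := z` (continuous extension, `q z = g T` by continuity): `T ∈ A`, and then
`T + ε ∈ A`: contradiction. So `A = [0, ∞)`, glue: `l t := (lift on Icc 0 (t + 1)) t`. -/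
theorem exists_lift {q : ℂ → ℂ} (hq : DifferentiableOn ℂ q Hm) {g : ℝ → ℂ} (hg : Continuous g)
    {P : ℂ} (hP : P ∈ Hm) (h0 : q P = g 0)
    (hreg : ∀ z ∈ Hm, ∀ t, 0 ≤ t → q z = g t → deriv q z ≠ 0)
    (hlim : ∀ T : ℝ, 0 < T → ∀ l : ℝ → ℂ, l 0 = P → ContinuousOn l (Ico 0 T) →
      (∀ t ∈ Ico 0 T, l t ∈ Hm ∧ q (l t) = g t) → ∃ z ∈ Hm, Tendsto l (𝓝[<] T) (𝓝 z)) :
    ∃ l : ℝ → ℂ, l 0 = P ∧ ContinuousOn l (Ici 0) ∧ ∀ t, 0 ≤ t → l t ∈ Hm ∧ q (l t) = g t := by
  classical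
  have hzero : Lft q g P 0 (fun _ => P) := by
    refine ⟨rfl, continuousOn_const, fun t ht => ?_⟩
    have : t = 0 := le_antisymm ht.2 ht.1
    subst this
    exact ⟨hP, h0⟩
  -- every interval has a lift
  have hall : ∀ T : ℝ, 0 ≤ T → ∃ l : ℝ → ℂ, Lft q g P T l := by
    by_contra hcon
    push Not at hcon
    obtain ⟨T₁, hT₁, hno⟩ := hcon
    set B : Set ℝ := {T | 0 ≤ T ∧ ¬ ∃ l : ℝ → ℂ, Lft q g P T l} with hB
    have hBne : B.Nonempty := ⟨T₁, hT₁, fun ⟨l, hl⟩ => hno l hl⟩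
    have hBbd : BddBelow B := ⟨0, fun t ht => ht.1⟩
    set T := sInf B with hTdef
    have hext : ∀ T' : ℝ, 0 ≤ T' → (∃ l : ℝ → ℂ, Lft q g P T' l) → T' < T := by
      rintro T' hT' ⟨l, hl⟩
      obtain ⟨ε, hε, l', hl'⟩ := hl.extend hq hg hreg hT'
      have h1 : T' + ε ≤ T := by
        refine le_csInf hBne ?_
        rintro x ⟨hx0, hx⟩
        by_contra hlt
        push Not at hlt
        exact hx ⟨l', hl'.mono hlt.le⟩
      linarith
    have hT0 : 0 < T := hext 0 le_rfl ⟨_, hzero⟩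
    have hbelow : ∀ T' ∈ Ico 0 T, ∃ l : ℝ → ℂ, Lft q g P T' l := by
      intro T' hT'
      by_contra hno'
      have : T ≤ T' := csInf_le hBbd ⟨hT'.1, hno'⟩
      linarith [hT'.2]
    obtain ⟨L, hL0, hLc, hL⟩ := Lft.glue hq hreg (S := Ico 0 T) (fun t ht => ht.1)
      (fun t ht => ⟨(t + T) / 2, ⟨by linarith [ht.1, ht.2], by linarith [ht.1, ht.2]⟩,
        by linarith [ht.1, ht.2]⟩) ⟨le_rfl, hT0⟩ hbelow
    obtain ⟨z, hz, hLz⟩ := hlim T hT0 L hL0 hLc hL
    have hqc : ContinuousAt q z :=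
      (hq.differentiableAt (isOpen_Hm_lift.mem_nhds hz)).continuousAt
    have hqz : q z = g T := by
      have h1 : Tendsto (fun t => q (L t)) (𝓝[<] T) (𝓝 (q z)) := hqc.tendsto.comp hLz
      have h2 : Tendsto g (𝓝[<] T) (𝓝 (g T)) := hg.continuousAt.tendsto.mono_left nhdsWithin_le_nhds
      have h3 : ∀ᶠ t in 𝓝[<] T, q (L t) = g t := by
        have h4 : ∀ᶠ t in 𝓝[<] T, t ∈ Ioo 0 T := Ioo_mem_nhdsLT hT0
        filter_upwards [h4] with t ht
        exact (hL t ⟨ht.1.le, ht.2⟩).2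
      exact tendsto_nhds_unique (h1.congr' h3) h2
    have hlift : Lft q g P T (fun t => if t < T then L t else z) := by
      refine ⟨?_, ?_, ?_⟩
      · show (if (0 : ℝ) < T then L 0 else z) = P
        rw [if_pos hT0]
        exact hL0
      · intro t ht
        rcases lt_or_eq_of_le ht.2 with htT | htT
        · have h1 : ContinuousWithinAt L (Icc 0 T ∩ Iio T) t := by
            refine (hLc t ⟨ht.1, htT⟩).mono ?_
            rintro x ⟨hx, hxT⟩
            exact ⟨hx.1, hxT⟩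
          have h2 : ContinuousWithinAt (fun t => if t < T then L t else z) (Icc 0 T ∩ Iio T) t :=
            h1.congr (fun x hx => if_pos hx.2) (if_pos htT)
          rwa [continuousWithinAt_inter (Iio_mem_nhds htT)] at h2
        · subst htT
          have h1 : Tendsto (fun t => if t < T then L t else z) (𝓝[<] T) (𝓝 z) := by
            refine hLz.congr' ?_
            filter_upwards [self_mem_nhdsWithin] with x hx
            exact (if_pos hx).symm
          have h2 : ContinuousWithinAt (fun t => if t < T then L t else z) (Iio T) T := by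
            show Tendsto _ _ (𝓝 (if T < T then L T else z))
            rw [if_neg (lt_irrefl T)]
            exact h1
          have h3 : ContinuousWithinAt (fun t => if t < T then L t else z) (Iic T) T := by
            rw [← Iio_union_right]
            exact h2.union continuousWithinAt_singleton
          exact h3.mono fun x hx => hx.2
      · intro t ht
        show (if t < T then L t else z) ∈ Hm ∧ q (if t < T then L t else z) = g t
        split_ifs with htT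
        · exact hL t ⟨ht.1, htT⟩
        · have : t = T := le_antisymm ht.2 (not_lt.1 htT)
          rw [this]
          exact ⟨hz, hqz⟩
    exact absurd (hext T hT0.le ⟨_, hlift⟩) (lt_irrefl T)
  obtain ⟨L, hL0, hLc, hL⟩ := Lft.glue hq hreg (S := Ici 0) (fun t ht => ht)
    (fun t ht => ⟨t + 1, by show (0 : ℝ) ≤ t + 1; linarith [show (0 : ℝ) ≤ t from ht], by linarith⟩)
    (show (0 : ℝ) ≤ 0 from le_rfl) (fun T hT => hall T hT)
  exact ⟨L, hL0, hLc, fun t ht => hL t ht⟩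

end PorTR
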