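import Pool.Agent.Lib.MP_ae5b4e_an_TR.Dich
import Pool.Agent.Lib.MP_ae5b4e_an_TR.Der

/-! MP_ae5b4e_an, trajectories with spiral levels: `q (l t) = q P * exp (- 2 u t)`, `Re u = 1`. -/

open Complex Filter Topology Set

namespace PorTR

/-- `l` (on `t ≥ 0`) is the descending `u`-trajectory of `q` through `P`, parametrised by
`q (l t) = q P * exp (-2 u t)`; all its points are regular points of `q`. -/
structure TrajU (q : ℂ → ℂ) (u P : ℂ) (l : ℝ → ℂ) : Prop where
  start : l 0 = P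
  cont : ContinuousOn l (Ici 0)
  low : ∀ t, 0 ≤ t → l t ∈ Hm
  val : ∀ t, 0 ≤ t → q (l t) = q P * cexp (-2 * u * t)
  reg : ∀ t, 0 ≤ t → deriv q (l t) ≠ 0

/-- `al` is a generic spiral: no critical value of `q` on `{exp (u (x + i al)) : x ∈ ℝ}` -/
def GenU (q : ℂ → ℂ) (u : ℂ) (al : ℝ) : Prop :=
  ∀ z ∈ Hm, deriv q z = 0 → ∀ x : ℝ, q z ≠ cexp (u * (x + al * I))

theorem norm_exp_u {u : ℂ} (hu : u.re = 1) (t : ℝ) :
    ‖cexp (-2 * u * t)‖ = Real.exp (-2 * t) := by
  rw [Complex.norm_exp]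
  congr 1
  simp [hu]

/-- Uniqueness. -/
theorem TrajU.unique {q : ℂ → ℂ} (hq : DifferentiableOn ℂ q Hm) {u P : ℂ} {l l' : ℝ → ℂ}
    (h : TrajU q u P l) (h' : TrajU q u P l') : ∀ t, 0 ≤ t → l t = l' t := by
  intro t ht
  refine eq_of_meet hq (a := 0) (b := t) (s := 0) ⟨le_rfl, ht⟩
    (h.cont.mono fun x hx => hx.1) (h'.cont.mono fun x hx => hx.1)
    (fun x hx => h.low x hx.1) (fun x hx => h.reg x hx.1) (fun x hx => ?_) ?_ t ⟨ht, le_rfl⟩
  · rw [h.val x hx.1, h'.val x hx.1]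
  · rw [h.start, h'.start]

/-- The shifted trajectory. -/
theorem TrajU.shift {q : ℂ → ℂ} {u P : ℂ} {l : ℝ → ℂ} (h : TrajU q u P l) {s : ℝ} (hs : 0 ≤ s) :
    TrajU q u (l s) (fun t => l (s + t)) := by
  refine ⟨by simp, ?_, fun t ht => h.low _ (add_nonneg hs ht), fun t ht => ?_,
    fun t ht => h.reg _ (add_nonneg hs ht)⟩
  · exact h.cont.comp (by fun_prop) fun t ht => add_nonneg hs ht
  · rw [h.val _ (add_nonneg hs ht), h.val _ hs]
    have e : cexp (-2 * u * ((s + t : ℝ) : ℂ)) = cexp (-2 * u * s) * cexp (-2 * u * t) := by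
      rw [← Complex.exp_add]
      congr 1
      push_cast
      ring
    rw [e]
    ring

/-- If two descending trajectories meet, `l s = l' s'` with `s' ≤ s`, then `P'` lies on the
trajectory of `P`: `l (s - s') = P'`, and from then on they coincide. -/
theorem TrajU.meet {q : ℂ → ℂ} (hq : DifferentiableOn ℂ q Hm) {u P P' : ℂ} {l l' : ℝ → ℂ}
    (h : TrajU q u P l) (h' : TrajU q u P' l') {s s' : ℝ} (hs' : 0 ≤ s') (hss : s' ≤ s)
    (hm : l s = l' s') : l (s - s') = P' ∧ ∀ t, 0 ≤ t → l (s - s' + t) = l' t := by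
  have hss' : 0 ≤ s - s' := sub_nonneg.2 hss
  have hsh := h.shift hss'
  have h1 : ∀ t ∈ Icc (0 : ℝ) s', l (s - s' + t) = l' t := by
    refine eq_of_meet hq (a := 0) (b := s') (s := s') (l := fun t => l (s - s' + t))
      ⟨hs', le_rfl⟩ (hsh.cont.mono fun x hx => hx.1) (h'.cont.mono fun x hx => hx.1)
      (fun x hx => hsh.low x hx.1) (fun x hx => hsh.reg x hx.1) (fun x hx => ?_) ?_
    · have e1 := hsh.val x hx.1
      have e2 := h'.val x hx.1
      have e3 := hsh.val s' hs'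
      have e4 := h'.val s' hs'
      simp only [sub_add_cancel] at e3
      rw [hm] at e3
      rw [e4] at e3
      have e5 : q P' = q (l (s - s')) := mul_right_cancel₀ (Complex.exp_ne_zero _) e3
      rw [e1, e2, e5]
    · simp only [sub_add_cancel]
      exact hm
  have h2 : l (s - s') = P' := by
    have := h1 0 ⟨le_rfl, hs'⟩
    rwa [add_zero, h'.start] at this
  refine ⟨h2, ?_⟩
  rw [h2] at hsh
  exact hsh.unique hq h'

/-- derivative of a trajectory -/
theorem TrajU.hasDerivAt {q : ℂ → ℂ} (hq : DifferentiableOn ℂ q Hm) {u P : ℂ} {l : ℝ → ℂ}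
    (h : TrajU q u P l) {t : ℝ} (ht : 0 < t) :
    HasDerivAt l (-2 * u * q (l t) / deriv q (l t)) t := by
  have hzH : l t ∈ Hm := h.low t ht.le
  have hop : IsOpen Hm := isOpen_lt Complex.continuous_im continuous_const
  have hqa : AnalyticAt ℂ q (l t) := hq.analyticAt (hop.mem_nhds hzH)
  have hqs : HasStrictDerivAt q (deriv q (l t)) (l t) := hqa.hasStrictDerivAt
  have hne : deriv q (l t) ≠ 0 := h.reg t ht.le
  have hlc : ContinuousAt l t := h.cont.continuousAt (Ici_mem_nhds ht)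
  have e1 := hqs.eventually_left_inverse hne
  have e2 : ∀ᶠ s in 𝓝 t, hqs.localInverse q (deriv q (l t)) (l t) hne (q (l s)) = l s := hlc e1
  have e3 : ∀ᶠ s : ℝ in 𝓝 t, l s = (hqs.localInverse q (deriv q (l t)) (l t) hne)
      (q P * cexp (-2 * u * s)) := by
    filter_upwards [e2, Ioi_mem_nhds ht] with s hs hs0
    rw [← h.val s (le_of_lt hs0), hs]
  have hin : HasDerivAt (fun s : ℝ => q P * cexp (-2 * u * s))
      (q P * (cexp (-2 * u * t) * (-2 * u))) t := by
    have h1 : HasDerivAt (fun s : ℝ => -2 * u * (s : ℂ)) (-2 * u) t := by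
      have h2 : HasDerivAt (fun s : ℝ => (s : ℂ)) 1 t := by
        simpa using (hasDerivAt_id t).ofReal_comp
      simpa using h2.const_mul (-2 * u)
    exact (h1.cexp).const_mul _
  have hout : HasDerivAt (hqs.localInverse q (deriv q (l t)) (l t) hne) (deriv q (l t))⁻¹
      (q P * cexp (-2 * u * t)) := by
    have h1 := (hqs.to_localInverse hne).hasDerivAt
    rwa [h.val t ht.le] at h1
  have hcomp := HasDerivAt.comp t hout hin
  have hfin := hcomp.congr_of_eventuallyEq (f₁ := l) (by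
    filter_upwards [e3] with s hs
    exact hs)
  refine hfin.congr_deriv ?_
  rw [h.val t ht.le]
  field_simp

theorem tendsto_exp_zero_u {u : ℂ} (hu : u.re = 1) (c : ℂ) :
    Tendsto (fun t : ℝ => c * cexp (-2 * u * t)) atTop (𝓝 0) := by
  have h1 : Tendsto (fun t : ℝ => Real.exp (-2 * t)) atTop (𝓝 0) := by
    apply Real.tendsto_exp_atBot.comp
    exact tendsto_id.const_mul_atTop_of_neg (by norm_num)
  have h2 : Tendsto (fun t : ℝ => cexp (-2 * u * t)) atTop (𝓝 0) := by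
    rw [tendsto_zero_iff_norm_tendsto_zero]
    refine h1.congr fun t => ?_
    rw [norm_exp_u hu]
  simpa using h2.const_mul c

/-- (2.12) DICHOTOMY, spiral version: existence of the trajectory. -/
theorem Fam.dichU {W : Set (ℂ → ℂ)} {C d0 Ce kap : ℝ} (F : Fam W C d0 Ce kap) {u : ℂ}
    (hu : u.re = 1) {q : ℂ → ℂ}
    (hq : q ∈ W) {P : ℂ} (hP : 2 * d0 ≤ -P.im) (h0 : q P ≠ 0) (hk : ‖q P‖ < kap)
    (hreg : ∀ z ∈ Hm, deriv q z = 0 → ∀ t : ℝ, 0 ≤ t → q z ≠ q P * cexp (-2 * u * t)) :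
    ∃ l, TrajU q u P l ∧ (Tendsto (fun t => (l t).im) atTop atBot ∨
      ∃ z ∈ Hm, Tendsto l atTop (𝓝 z)) := by
  have hd0 := F.d0_pos
  have hPH : P ∈ Hm := by
    change P.im < 0
    linarith
  have hqP0 : 0 < ‖q P‖ := norm_pos_iff.mpr h0
  set g : ℝ → ℂ := fun t => q P * cexp (-2 * u * t) with hg
  have hgc : Continuous g := by fun_prop
  have hgn : ∀ t, ‖g t‖ = ‖q P‖ * Real.exp (-2 * t) := by
    intro t
    simp only [hg]
    rw [norm_mul, norm_exp_u hu]
  have hglt : ∀ t, 0 ≤ t → ‖g t‖ < kap := by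
    intro t ht
    rw [hgn]
    have h1 : Real.exp (-2 * t) ≤ 1 := Real.exp_le_one_iff.mpr (by linarith)
    calc ‖q P‖ * Real.exp (-2 * t) ≤ ‖q P‖ * 1 := by gcongr
      _ < kap := by linarith
  have hregg : ∀ z ∈ Hm, ∀ t, 0 ≤ t → q z = g t → deriv q z ≠ 0 := by
    intro z hz t ht hqz hd
    exact hreg z hz hd t ht hqz
  obtain ⟨l, hl0, hlc, hlv⟩ := exists_lift (F.hol q hq) hgc hPH (by simp [hg]) hregg (by
    intro T hT l hl0 hlc hlv
    have hdeep : ∀ t ∈ Ico 0 T, d0 < -(l t).im := by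
      intro t ht
      have hsub : Icc 0 t ⊆ Ico 0 T := fun u hu => ⟨hu.1, hu.2.trans_lt ht.2⟩
      refine F.deep hq (hlc.mono hsub) (by rw [hl0]; exact hP) (fun s hs => ?_) t ⟨ht.1, le_rfl⟩
      rw [(hlv s (hsub hs)).2]
      exact hglt s hs.1
    refine F.tendsto_left hq hT hlc
      (C' := Real.sqrt (C / (‖q P‖ * Real.exp (-2 * T)))) (fun t ht => ⟨(hdeep t ht).le, ?_⟩)
      (w := g T) ?_
    · refine F.depth_le hq (hlv t ht).1 (by positivity) ?_
      rw [(hlv t ht).2, hgn]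
      have h1 : Real.exp (-2 * T) ≤ Real.exp (-2 * t) := Real.exp_le_exp.mpr (by linarith [ht.2])
      gcongr
    · have h1 : Tendsto g (𝓝[<] T) (𝓝 (g T)) := (hgc.tendsto T).mono_left nhdsWithin_le_nhds
      refine h1.congr' ?_
      exact mem_of_superset (Ico_mem_nhdsLT hT) fun t ht => ((hlv t ht).2).symm)
  have htraj : TrajU q u P l :=
    ⟨hl0, hlc, fun t ht => (hlv t ht).1, fun t ht => (hlv t ht).2,
      fun t ht => hregg _ (hlv t ht).1 t ht (hlv t ht).2⟩
  have hdeep : ∀ t, 0 ≤ t → d0 < -(l t).im := by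
    intro t ht
    refine F.deep hq (hlc.mono Icc_subset_Ici_self) (by rw [hl0]; exact hP) (fun s hs => ?_) t
      ⟨ht, le_rfl⟩
    rw [(hlv s hs.1).2]
    exact hglt s hs.1
  have hw : Tendsto (fun t => q (l t)) atTop (𝓝 0) := by
    have h1 : Tendsto g atTop (𝓝 0) := tendsto_exp_zero_u hu (q P)
    refine h1.congr' ?_
    filter_upwards [eventually_ge_atTop 0] with t ht
    exact ((hlv t ht).2).symm
  exact ⟨l, htraj, F.tendsto_top hq hlc (fun t ht => (hdeep t ht).le) hw⟩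

/-- norm of the value -/
theorem TrajU.norm_val {q : ℂ → ℂ} {u P : ℂ} (hu : u.re = 1) {l : ℝ → ℂ} (h : TrajU q u P l)
    {t : ℝ} (ht : 0 ≤ t) : ‖q (l t)‖ = ‖q P‖ * Real.exp (-2 * t) := by
  rw [h.val t ht, norm_mul, norm_exp_u hu]

/-- Depth of a trajectory. -/
theorem TrajU.deep {W : Set (ℂ → ℂ)} {C d0 Ce kap : ℝ} (F : Fam W C d0 Ce kap) {q : ℂ → ℂ}
    (hq : q ∈ W) {u P : ℂ} (hu : u.re = 1) (hP : 2 * d0 ≤ -P.im) (hk : ‖q P‖ < kap) {l : ℝ → ℂ}
    (h : TrajU q u P l) : ∀ t, 0 ≤ t → d0 < -(l t).im := by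
  intro t ht
  refine F.deep hq (h.cont.mono Icc_subset_Ici_self) (by rw [h.start]; exact hP)
    (fun s hs => ?_) t ⟨ht, le_rfl⟩
  rw [h.norm_val hu hs.1]
  have h1 : Real.exp (-2 * s) ≤ 1 := Real.exp_le_one_iff.mpr (by linarith [hs.1])
  calc ‖q P‖ * Real.exp (-2 * s) ≤ ‖q P‖ * 1 := by gcongr
    _ < kap := by linarith

/-- The limit of a finite trajectory is a zero of `q`. -/
theorem TrajU.lim_zero {q : ℂ → ℂ} (hq : DifferentiableOn ℂ q Hm) {u P z : ℂ} (hu : u.re = 1)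
    {l : ℝ → ℂ} (h : TrajU q u P l) (hz : z ∈ Hm) (hl : Tendsto l atTop (𝓝 z)) : q z = 0 := by
  have hop : IsOpen Hm := isOpen_lt Complex.continuous_im continuous_const
  have h1 : Tendsto (fun t => q (l t)) atTop (𝓝 (q z)) :=
    ((hq.continuousOn.continuousAt (hop.mem_nhds hz)).tendsto).comp hl
  have h2 : Tendsto (fun t => q (l t)) atTop (𝓝 0) := by
    refine (tendsto_exp_zero_u hu (q P)).congr' ?_
    filter_upwards [eventually_ge_atTop 0] with t ht
    exact (h.val t ht).symm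
  exact tendsto_nhds_unique h1 h2

/-- The spirals which are not generic form a countable set. -/
theorem countable_not_genU {q : ℂ → ℂ} (hq : DifferentiableOn ℂ q Hm) {u : ℂ} (hu : u.re = 1)
    (hc : ¬ ∃ c : ℂ, ∀ z ∈ Hm, q z = c) : {al : ℝ | ¬ GenU q u al}.Countable := by
  have hu0 : u ≠ 0 := by
    rintro rfl
    simp at hu
  have hop : IsOpen Hm := isOpen_lt Complex.continuous_im continuous_const
  have hconv : Convex ℝ Hm := convex_halfSpace_im_lt 0
  have hne : (-I : ℂ) ∈ Hm := by simp [Hm]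
  have hconn : IsConnected Hm := ⟨⟨_, hne⟩, hconv.isPreconnected⟩
  have hder : AnalyticOnNhd ℂ (deriv q) Hm := (hq.analyticOnNhd hop).deriv
  obtain ⟨x, hx, hx0⟩ : ∃ x ∈ Hm, deriv q x ≠ 0 := by
    by_contra hcon
    push Not at hcon
    apply hc
    obtain ⟨c, hc'⟩ := hop.exists_is_const_of_deriv_eq_zero hconv.isPreconnected hq
      (fun z hz => hcon z hz)
    exact ⟨c, hc'⟩
  have hcz : ({z ∈ Hm | deriv q z = 0}).Countable := by
    have h1 := hder.preimage_zero_mem_codiscreteWithin hx0 hx hconn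
    have h2 : ((deriv q ⁻¹' {0}ᶜ)ᶜ ∩ Hm).Countable := by
      apply (HereditarilyLindelofSpace.isLindelof _).countable_of_isDiscrete
        (isDiscrete_of_codiscreteWithin _)
      simpa using! h1
    refine h2.mono ?_
    rintro z ⟨hz, hz0⟩
    exact ⟨by simp [hz0], hz⟩
  have hsub : {al : ℝ | ¬ GenU q u al} ⊆
      ⋃ z ∈ {z ∈ Hm | deriv q z = 0},
        range (fun k : ℤ => ((log (q z) + k * (2 * Real.pi * I)) / u).im) := by
    intro al hal
    simp only [GenU, mem_ofPred_eq] at hal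
    push Not at hal
    obtain ⟨z, hz, hz0, r, hqz⟩ := hal
    simp only [mem_iUnion]
    refine ⟨z, ⟨hz, hz0⟩, ?_⟩
    have h1 : cexp (log (q z)) = cexp (u * (r + al * I)) := by
      rw [exp_log (by rw [hqz]; exact exp_ne_zero _), hqz]
    obtain ⟨k, hk⟩ := (Complex.exp_eq_exp_iff_exists_int.1 h1.symm)
    refine ⟨k, ?_⟩
    show ((log (q z) + k * (2 * Real.pi * I)) / u).im = al
    rw [← hk, mul_div_cancel_left₀ _ hu0]
    simp
  exact (hcz.biUnion fun z _ => countable_range _).mono hsub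

end PorTR
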