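import Pool.Agent.Lib.MP_ae5b4e_an_TR.Defs

open Complex Filter Topology Set

namespace PorTR

/-- Two continuous paths with the same `q`-values, which meet at a regular point of `q`, coincide
nearby.

Proof. `q` is strictly differentiable at `z = l s = l' s` with `deriv q z ≠ 0` (`Hm` is open, `q`
is analytic there), hence injective on a neighbourhood `U` of `z`
(`HasStrictDerivAt.localInverse`, or `HasStrictFDerivAt.toOpenPartialHomeomorph`, or
`(hasStrictDerivAt).eventually_left_inverse`). By continuity of `l`, `l'` within `S` at `s`, for `t`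
near `s` in `S` both `l t` and `l' t` are in `U`, and `q (l t) = q (l' t)`. -/
theorem eventually_eq_of_meet {q : ℂ → ℂ} (hq : DifferentiableOn ℂ q Hm) {S : Set ℝ} {s : ℝ}
    {l l' : ℝ → ℂ} (hl : ContinuousWithinAt l S s) (hl' : ContinuousWithinAt l' S s)
    (hs : l s = l' s) (hz : l s ∈ Hm) (hd : deriv q (l s) ≠ 0)
    (hv : ∀ t ∈ S, q (l t) = q (l' t)) : ∀ᶠ t in 𝓝[S] s, l t = l' t := by
  have hop : IsOpen Hm := isOpen_lt Complex.continuous_im continuous_const
  have han : AnalyticAt ℂ q (l s) := hq.analyticAt (hop.mem_nhds hz)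
  have hsd : HasStrictDerivAt q (deriv q (l s)) (l s) := han.hasStrictDerivAt
  have hinv := hsd.eventually_left_inverse hd
  have h1 := hl.eventually hinv
  have h2 : ∀ᶠ t in 𝓝[S] s, hsd.localInverse q _ _ hd (q (l' t)) = l' t := by
    have := hl'.tendsto
    rw [← hs] at this
    exact this.eventually hinv
  filter_upwards [h1, h2, self_mem_nhdsWithin] with t ht1 ht2 htS
  rw [← ht1, ← ht2, hv t htS]

/-- Uniqueness on an interval: two continuous paths on `[a, b]` (in `Hm`, first one through regular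
points) with the same `q`-values, which agree at one point `s` of `[a, b]`, agree on `[a, b]`.

Proof. The set `{t ∈ Icc a b | l t = l' t}` is nonempty, closed in `Icc a b` (continuity) and open
in `Icc a b` (`eventually_eq_of_meet`); `Icc a b` is preconnected
(`isPreconnected_Icc`, e.g. via `IsPreconnected.subset_clopen` in the subtype, or
`IsPreconnected.subset_of_closure_inter_subset`). -/
theorem eq_of_meet {q : ℂ → ℂ} (hq : DifferentiableOn ℂ q Hm) {a b s : ℝ} {l l' : ℝ → ℂ}
    (hs : s ∈ Icc a b) (hl : ContinuousOn l (Icc a b)) (hl' : ContinuousOn l' (Icc a b))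
    (hz : ∀ t ∈ Icc a b, l t ∈ Hm) (hd : ∀ t ∈ Icc a b, deriv q (l t) ≠ 0)
    (hv : ∀ t ∈ Icc a b, q (l t) = q (l' t)) (h : l s = l' s) :
    ∀ t ∈ Icc a b, l t = l' t := by
  -- clopen argument in the subtype
  set A : Set (Icc a b) := {t | l t = l' t} with hA
  have hcl : IsClosed A := isClosed_eq
    (continuousOn_iff_continuous_domRestrict.1 hl) (continuousOn_iff_continuous_domRestrict.1 hl')
  have hopn : IsOpen A := by
    rw [isOpen_iff_mem_nhds]
    rintro ⟨t, ht⟩ hmem
    have hmem' : l t = l' t := hmem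
    have h1 := eventually_eq_of_meet hq (hl t ht) (hl' t ht) hmem' (hz t ht) (hd t ht) hv
    rw [nhds_subtype_eq_comap_nhdsWithin]
    exact preimage_mem_comap h1
  have : PreconnectedSpace (Icc a b) :=
    isPreconnected_iff_preconnectedSpace.1 isPreconnected_Icc
  have huniv : A = univ := IsClopen.eq_univ ⟨hcl, hopn⟩ ⟨⟨s, hs⟩, h⟩
  intro t ht
  have : (⟨t, ht⟩ : Icc a b) ∈ A := by rw [huniv]; trivial
  exact this

/-- Uniqueness of the descending trajectory: `eq_of_meet` on `Icc 0 t` with `s = 0`. -/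
theorem Traj.unique {q : ℂ → ℂ} (hq : DifferentiableOn ℂ q Hm) {P : ℂ} {l l' : ℝ → ℂ}
    (h : Traj q P l) (h' : Traj q P l') : ∀ t, 0 ≤ t → l t = l' t := by
  intro t ht
  refine eq_of_meet hq (a := 0) (b := t) (s := 0) ⟨le_rfl, ht⟩
    (h.cont.mono fun x hx => hx.1) (h'.cont.mono fun x hx => hx.1)
    (fun x hx => h.low x hx.1) (fun x hx => h.reg x hx.1) (fun x hx => ?_) ?_ t ⟨ht, le_rfl⟩
  · rw [h.val x hx.1, h'.val x hx.1]
  · rw [h.start, h'.start]

/-- The shifted trajectory. -/
theorem Traj.shift {q : ℂ → ℂ} {P : ℂ} {l : ℝ → ℂ} (h : Traj q P l) {s : ℝ} (hs : 0 ≤ s) :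
    Traj q (l s) (fun t => l (s + t)) := by
  refine ⟨by simp, ?_, fun t ht => h.low _ (add_nonneg hs ht), fun t ht => ?_,
    fun t ht => h.reg _ (add_nonneg hs ht)⟩
  · exact h.cont.comp (by fun_prop) fun t ht => add_nonneg hs ht
  · rw [h.val _ (add_nonneg hs ht), h.val _ hs, mul_assoc, ← Complex.ofReal_mul, ← Real.exp_add]
    congr 3
    ring

/-- If two descending trajectories meet, `l s = l' s'` with `s' ≤ s`, then `P'` lies on the
trajectory of `P`: `l (s - s') = P'`, and from then on they coincide.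

Proof. On `Icc 0 s'` compare `t ↦ l (s - s' + t)` and `l'`: `q (l (s - s' + t)) =
q (l s) * exp (2 (s' - t))`, `q (l' t) = q (l' s') * exp (2 (s' - t))` (both from `val`), so the
`q`-values agree; the paths agree at `t = s'`; `eq_of_meet` gives the claim on `Icc 0 s'`, in
particular at `t = 0`. The second part follows from `Traj.shift` and `Traj.unique`. -/
theorem Traj.meet {q : ℂ → ℂ} (hq : DifferentiableOn ℂ q Hm) {P P' : ℂ} {l l' : ℝ → ℂ}
    (h : Traj q P l) (h' : Traj q P' l') {s s' : ℝ} (hs' : 0 ≤ s') (hss : s' ≤ s)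
    (hm : l s = l' s') : l (s - s') = P' ∧ ∀ t, 0 ≤ t → l (s - s' + t) = l' t := by
  have hss' : 0 ≤ s - s' := sub_nonneg.2 hss
  have hsh := h.shift hss'
  have h1 : ∀ t ∈ Icc (0 : ℝ) s', l (s - s' + t) = l' t := by
    refine eq_of_meet hq (a := 0) (b := s') (s := s') (l := fun t => l (s - s' + t))
      ⟨hs', le_rfl⟩ (hsh.cont.mono fun x hx => hx.1) (h'.cont.mono fun x hx => hx.1)
      (fun x hx => hsh.low x hx.1) (fun x hx => hsh.reg x hx.1) (fun x hx => ?_) ?_
    · have e1 := hsh.val x hx.1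
      have e2 := h'.val x hx.1
      have e3 := hsh.val s' hs'
      have e4 := h'.val s' hs'
      simp only [sub_add_cancel] at e3
      rw [hm] at e3
      rw [e4] at e3
      have hne : ((Real.exp (-2 * s') : ℝ) : ℂ) ≠ 0 := by exact_mod_cast (Real.exp_pos _).ne'
      have e5 : q P' = q (l (s - s')) := mul_right_cancel₀ hne e3
      rw [e1, e2, e5]
    · simp only [sub_add_cancel]
      exact hm
  have h2 : l (s - s') = P' := by
    have := h1 0 ⟨le_rfl, hs'⟩
    rwa [add_zero, h'.start] at this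
  refine ⟨h2, ?_⟩
  rw [h2] at hsh
  exact hsh.unique hq h'

end PorTR
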